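import Mathlib

set_option autoImplicit false

/-!
Differences of elements of a multiplicative subgroup of finite index: in an infinite field, and in
a finite field that is large compared with the index, every element is such a difference.
-/

namespace Pool.Agent.Helper96_HF

open Finset

/-- In an infinite field there are arbitrarily long families all of whose nonempty subset sums are
nonzero. -/
theorem exists_subset_sums {K ι : Type*} [Field K] [Infinite K] [DecidableEq ι]
    (s : Finset ι) : ∃ c : ι → K, ∀ T ⊆ s, T.Nonempty → ∑ i ∈ T, c i ≠ 0 := by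
  classical
  induction s using Finset.induction_on with
  | empty =>
    refine ⟨fun _ => 0, fun T hT hne => ?_⟩
    rw [subset_empty] at hT
    exact absurd hT hne.ne_empty
  | insert i0 s hi0 ih =>
    obtain ⟨c, hc⟩ := ih
    obtain ⟨u, hu⟩ := Infinite.exists_notMem_finset (s.powerset.image (fun T => - ∑ i ∈ T, c i))
    refine ⟨fun i => if i = i0 then u else c i, fun T hT hne => ?_⟩
    by_cases h : i0 ∈ T
    · have hsub : T.erase i0 ⊆ s := by
        intro x hx
        rw [mem_erase] at hx
        exact (mem_insert.1 (hT hx.2)).resolve_left hx.1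
      rw [← add_sum_erase T _ h]
      simp only [if_true]
      have : ∑ x ∈ T.erase i0, (if x = i0 then u else c x) = ∑ x ∈ T.erase i0, c x := by
        refine sum_congr rfl fun x hx => ?_
        rw [if_neg (mem_erase.1 hx).1]
      rw [this]
      intro h0
      apply hu
      rw [mem_image]
      refine ⟨T.erase i0, mem_powerset.2 hsub, ?_⟩
      linear_combination -h0
    · have hsub : T ⊆ s := by
        intro x hx
        refine (mem_insert.1 (hT hx)).resolve_left ?_
        rintro rfl
        exact h hx
      have : ∑ x ∈ T, (if x = i0 then u else c x) = ∑ x ∈ T, c x := by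
        refine sum_congr rfl fun x hx => ?_
        rw [if_neg]
        rintro rfl
        exact h hx
      rw [this]
      exact hc T hsub hne

/-- A colouring of an infinite field has monochromatic homothetic copies of any finite family,
with nonzero ratio. -/
theorem exists_homothetic {K X Y : Type*} [Field K] [Infinite K] [Finite X] [Finite Y]
    (f : K → X) (v : Y → K) : ∃ a b : K, a ≠ 0 ∧ ∃ c : X, ∀ y : Y, f (a * v y + b) = c := by
  classical
  obtain ⟨ι, hι, hHJ⟩ := Combinatorics.Line.exists_mono_in_high_dimension Y X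
  obtain ⟨c, hc⟩ := exists_subset_sums (K := K) (univ : Finset ι)
  obtain ⟨l, c0, hl⟩ := hHJ (fun w => f (∑ i, c i * v (w i)))
  set act : Finset ι := univ.filter (fun i => l.idxFun i = none) with hact
  have hne : act.Nonempty := by
    obtain ⟨i, hi⟩ := l.proper
    exact ⟨i, by rw [hact, mem_filter]; exact ⟨mem_univ _, hi⟩⟩
  refine ⟨∑ i ∈ act, c i, ∑ i ∈ univ.filter (fun i => ¬ l.idxFun i = none),
    c i * (match l.idxFun i with
      | none => 0
      | some y => v y), hc act (subset_univ _) hne, c0, fun y => ?_⟩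
  rw [← hl y]
  congr 1
  rw [← sum_filter_add_sum_filter_not univ (fun i => l.idxFun i = none)
    (fun i => c i * v (l y i)), sum_mul]
  congr 1
  · refine sum_congr rfl fun i hi => ?_
    rw [mem_filter] at hi
    rw [Combinatorics.Line.apply_none l y i hi.2]
  · refine sum_congr rfl fun i hi => ?_
    rw [mem_filter] at hi
    obtain ⟨z, hz⟩ := Option.ne_none_iff_exists'.1 hi.2
    rw [hz, Combinatorics.Line.apply_some (x := y) hz]

/-- Differences in a finite index subgroup of the units of an infinite field. -/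
theorem infinite_diff {K X : Type*} [Field K] [Infinite K] [Finite X] (G : Subgroup Kˣ)
    (f : K → X) (hs : Function.Surjective f)
    (hf : ∀ x y : K, f x = f y ↔ ∃ g ∈ G, y = x * (g : K)) (x : K) :
    ∃ g ∈ G, ∃ h ∈ G, x = (g : K) - (h : K) := by
  classical
  by_cases hx : x = 0
  · exact ⟨1, G.one_mem, 1, G.one_mem, by simp [hx]⟩
  choose rep hrep using hs
  obtain ⟨a, b, ha, c, hc⟩ := exists_homothetic f
    (fun o : Option X => match o with
      | none => 0
      | some y => rep y)
  have hb0 : f b = c := by simpa using hc none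
  have hbne : b ≠ 0 := by
    rintro rfl
    have h1 := hc (some (f 1))
    simp only [add_zero] at h1
    rw [← hb0, eq_comm, hf] at h1
    obtain ⟨g, _, hg⟩ := h1
    rw [zero_mul] at hg
    rcases mul_eq_zero.1 hg with h | h
    · exact ha h
    · have := hrep (f 1)
      rw [h, hf] at this
      obtain ⟨g', _, hg'⟩ := this
      simp at hg'
  have h1 := hc (some (f (x * b * a⁻¹)))
  simp only at h1
  rw [← hb0, eq_comm, hf] at h1
  obtain ⟨g, hg, hgeq⟩ := h1
  obtain ⟨g', hg', hg'eq⟩ := (hf _ _).1 (hrep (f (x * b * a⁻¹)))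
  refine ⟨g' * g, G.mul_mem hg' hg, g', hg', ?_⟩
  have e1 : a * rep (f (x * b * a⁻¹)) * (g' : K) = x * b := by
    rw [mul_assoc, ← hg'eq]
    field_simp
  have e2 : (b * (g : K) - b) * (g' : K) = x * b := by
    rw [← e1, ← hgeq]
    ring
  have e3 : b * x = b * (((g' * g : Kˣ) : K) - (g' : K)) := by
    rw [Units.val_mul]
    linear_combination -e2
  exact mul_left_cancel₀ hbne e3

/-- If a nonzero element is not a difference of two elements of `G`, then `G` is small. -/
theorem card_pow_four_le {F : Type*} [Field F] [Fintype F] [DecidableEq F] (G : Subgroup Fˣ)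
    [Fintype G] (c : F) (hc : c ≠ 0) (hno : ∀ g ∈ G, ∀ h ∈ G, (g : F) - (h : F) ≠ c) :
    (Fintype.card G) ^ 4 ≤ (Fintype.card F) ^ 3 := by
  classical
  set q := Fintype.card F with hq
  set n := (Fintype.card G) ^ 2 with hn
  -- incidences
  let inc : (G × G) → (F × F) → ℕ := fun ab p =>
    if ((ab.1 : Fˣ) : F) * p.1 - ((ab.2 : Fˣ) : F) * p.2 = c then 1 else 0
  let I : F × F → ℕ := fun p => ∑ ab, inc ab p
  have hline : ∀ ab : G × G, ∑ p, inc ab p = q := by
    intro ab
    show ∑ p : F × F, (if ((ab.1 : Fˣ) : F) * p.1 - ((ab.2 : Fˣ) : F) * p.2 = c then 1 else 0) = q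
    rw [Fintype.sum_prod_type_right]
    have : ∀ y : F, ∑ x : F, (if ((ab.1 : Fˣ) : F) * x - ((ab.2 : Fˣ) : F) * y = c then 1 else 0)
        = 1 := by
      intro y
      rw [sum_eq_single (((ab.1 : Fˣ) : F)⁻¹ * (c + ((ab.2 : Fˣ) : F) * y))]
      · rw [if_pos]
        rw [mul_inv_cancel_left₀ (Units.ne_zero _)]
        ring
      · intro x _ hx
        rw [if_neg]
        intro h
        apply hx
        rw [← h]
        rw [sub_add_cancel, inv_mul_cancel_left₀ (Units.ne_zero _)]
      · intro h
        exact absurd (mem_univ _) h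
    rw [sum_congr rfl (fun y _ => this y)]
    simp [hq]
  have hpair : ∀ ab cd : G × G, ab ≠ cd → ∑ p, inc ab p * inc cd p ≤ 1 := by
    intro ab cd hne
    have h1 : ∑ p, inc ab p * inc cd p =
        (univ.filter (fun p : F × F => ((ab.1 : Fˣ) : F) * p.1 - ((ab.2 : Fˣ) : F) * p.2 = c ∧
          ((cd.1 : Fˣ) : F) * p.1 - ((cd.2 : Fˣ) : F) * p.2 = c)).card := by
      rw [card_filter]
      refine sum_congr rfl fun p _ => ?_
      show (if _ then 1 else 0) * (if _ then 1 else 0) = _
      split_ifs <;> simp_all
    rw [h1, card_le_one]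
    intro p hp p' hp'
    rw [mem_filter] at hp hp'
    obtain ⟨-, hp1, hp2⟩ := hp
    obtain ⟨-, hp1', hp2'⟩ := hp'
    set a : F := ((ab.1 : Fˣ) : F) with ha
    set b : F := ((ab.2 : Fˣ) : F) with hb
    set a' : F := ((cd.1 : Fˣ) : F) with ha'
    set b' : F := ((cd.2 : Fˣ) : F) with hb'
    have hane : a ≠ 0 := Units.ne_zero _
    have hbne : b ≠ 0 := Units.ne_zero _
    by_cases hdet : a * b' - a' * b = 0
    · exfalso
      -- proportional, hence equal
      have e1 : a' * (a * p.1 - b * p.2) = a * (a' * p.1 - b' * p.2) := by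
        have : a * b' = a' * b := sub_eq_zero.1 hdet
        linear_combination p.2 * this
      rw [hp1, hp2] at e1
      have e2 : a' = a := mul_right_cancel₀ hc e1
      rw [e2] at hdet
      have e3 : b' = b := by
        have : a * (b' - b) = 0 := by linear_combination hdet
        rcases mul_eq_zero.1 this with h | h
        · exact absurd h hane
        · exact sub_eq_zero.1 h
      apply hne
      refine Prod.ext (Subtype.ext (Units.ext ?_)) (Subtype.ext (Units.ext ?_))
      · exact e2.symm
      · exact e3.symm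
    · have e1 : (a * b' - a' * b) * (p.1 - p'.1) = 0 := by
        linear_combination b' * hp1 - b' * hp1' - b * hp2 + b * hp2'
      have e2 : (a * b' - a' * b) * (p.2 - p'.2) = 0 := by
        linear_combination a' * hp1 - a' * hp1' - a * hp2 + a * hp2'
      refine Prod.ext ?_ ?_
      · rcases mul_eq_zero.1 e1 with h | h
        · exact absurd h hdet
        · exact sub_eq_zero.1 h
      · rcases mul_eq_zero.1 e2 with h | h
        · exact absurd h hdet
        · exact sub_eq_zero.1 h
  have hidem : ∀ ab p, inc ab p * inc ab p = inc ab p := by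
    intro ab p
    show (if _ then 1 else 0) * (if _ then 1 else 0) = (if _ then 1 else 0)
    split_ifs <;> simp
  have hcardGG : Fintype.card (G × G) = n := by
    rw [Fintype.card_prod, hn, sq]
  have hsum1 : ∑ p, I p = n * q := by
    show ∑ p, ∑ ab, inc ab p = _
    rw [sum_comm, sum_congr rfl (fun ab _ => hline ab), sum_const, card_univ, hcardGG, smul_eq_mul]
  have hsum2 : ∑ p, I p ^ 2 ≤ n * (q + n) := by
    have h1 : ∑ p, I p ^ 2 = ∑ ab, ∑ cd, ∑ p, inc ab p * inc cd p := by
      have : ∀ p, I p ^ 2 = ∑ ab, ∑ cd, inc ab p * inc cd p := by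
        intro p
        show (∑ ab, inc ab p) ^ 2 = _
        rw [sq, sum_mul_sum]
      rw [sum_congr rfl (fun p _ => this p), sum_comm]
      refine sum_congr rfl fun ab _ => ?_
      rw [sum_comm]
    rw [h1]
    have h2 : ∀ ab : G × G, ∑ cd, ∑ p, inc ab p * inc cd p ≤ q + n := by
      intro ab
      rw [← add_sum_erase univ _ (mem_univ ab)]
      refine add_le_add ?_ ?_
      · rw [sum_congr rfl (fun p _ => hidem ab p), hline]
      · refine (sum_le_card_nsmul _ _ 1 ?_).trans ?_
        · intro cd hcd
          exact hpair ab cd (ne_of_mem_erase hcd).symm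
        · rw [smul_eq_mul, mul_one]
          refine (card_le_card (erase_subset _ _)).trans ?_
          rw [card_univ, hcardGG]
    refine (sum_le_sum (fun ab _ => h2 ab)).trans ?_
    rw [sum_const, card_univ, hcardGG, smul_eq_mul]
  -- points of G × G lie on no line
  let P : Finset (F × F) := (univ : Finset (G × G)).image
    (fun gh => (((gh.1 : Fˣ) : F), ((gh.2 : Fˣ) : F)))
  have hPc : P.card = n := by
    rw [card_image_of_injective, card_univ, hcardGG]
    intro x y hxy
    simp only [Prod.mk.injEq] at hxy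
    exact Prod.ext (Subtype.ext (Units.ext hxy.1)) (Subtype.ext (Units.ext hxy.2))
  have hPI : ∀ p ∈ P, I p = 0 := by
    intro p hp
    rw [mem_image] at hp
    obtain ⟨gh, -, rfl⟩ := hp
    show ∑ ab, inc ab _ = 0
    refine sum_eq_zero fun ab _ => ?_
    show (if _ then 1 else 0) = 0
    rw [if_neg]
    have := hno (ab.1 * gh.1 : Fˣ) (G.mul_mem ab.1.2 gh.1.2) (ab.2 * gh.2 : Fˣ)
      (G.mul_mem ab.2.2 gh.2.2)
    simpa using this
  have hsum3 : ∑ p ∈ Pᶜ, I p = n * q := by
    rw [← hsum1, ← sum_add_sum_compl P, sum_eq_zero hPI, zero_add]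
  have hsum4 : ∑ p ∈ Pᶜ, I p ^ 2 ≤ n * (q + n) :=
    (sum_le_univ_sum_of_nonneg (fun _ => Nat.zero_le _)).trans hsum2
  have hcs := sq_sum_le_card_mul_sum_sq (s := Pᶜ) (f := I)
  rw [hsum3] at hcs
  have hPcc : (Pᶜ).card + n = q ^ 2 := by
    rw [← hPc, add_comm, card_add_card_compl, Fintype.card_prod, ← hq, sq]
  have hn1 : 0 < n := by
    rw [hn]
    have : 0 < Fintype.card G := Fintype.card_pos
    positivity
  have h5 : (n * q) ^ 2 ≤ (Pᶜ).card * (n * (q + n)) := hcs.trans (Nat.mul_le_mul_left _ hsum4)
  have hfin : n ^ 2 ≤ q ^ 3 := by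
    by_contra hlt
    push Not at hlt
    have h6 : (Pᶜ).card * (q + n) ≥ n * q ^ 2 := by
      have : n * (n * q ^ 2) ≤ n * ((Pᶜ).card * (q + n)) := by
        calc n * (n * q ^ 2) = (n * q) ^ 2 := by ring
          _ ≤ _ := h5
          _ = _ := by ring
      exact Nat.le_of_mul_le_mul_left this hn1
    nlinarith [hPcc, h6, hlt, Nat.zero_le (n * q)]
  calc (Fintype.card G) ^ 4 = n ^ 2 := by rw [hn]; ring
    _ ≤ q ^ 3 := hfin

end Pool.Agent.Helper96_HF
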