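import Mathlib

set_option autoImplicit false

/-!
Triples of elements of a finite abelian group up to scaling and permutation, and the count of
generic sets of such classes.
-/

namespace Pool.Agent.Helper96_HF

open Finset

/-- Triples of elements of an abelian group, up to common scaling and permutation. -/
def tripleSetoid (A : Type*) [CommGroup A] : Setoid (Fin 3 → A) where
  r v w := ∃ (t : A) (σ : Equiv.Perm (Fin 3)), ∀ i, w (σ i) = t * v i
  iseqv := by
    refine ⟨fun v => ⟨1, Equiv.refl _, fun i => by simp⟩, ?_, ?_⟩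
    · rintro v w ⟨t, σ, h⟩
      refine ⟨t⁻¹, σ.symm, fun i => ?_⟩
      have := h (σ.symm i)
      rw [Equiv.apply_symm_apply] at this
      rw [this]; simp
    · rintro u v w ⟨t, σ, h⟩ ⟨s, τ, k⟩
      refine ⟨s * t, σ.trans τ, fun i => ?_⟩
      rw [Equiv.trans_apply, k, h, mul_assoc]

/-- The classes of triples. -/
def Om (A : Type*) [CommGroup A] : Type _ := Quotient (tripleSetoid A)

noncomputable instance (A : Type*) [CommGroup A] [Finite A] : Fintype (Om A) :=
  @Fintype.ofFinite _ (Quotient.finite _)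

noncomputable instance (A : Type*) [CommGroup A] : DecidableEq (Om A) := Classical.decEq _

/-- The class of a vector. -/
def vcls {A : Type*} [CommGroup A] (v : Fin 3 → A) : Om A := Quotient.mk (tripleSetoid A) v

/-- The class of a triple. -/
def cls {A : Type*} [CommGroup A] (a b c : A) : Om A := vcls ![a, b, c]

theorem vcls_eq_iff {A : Type*} [CommGroup A] (v w : Fin 3 → A) :
    vcls v = vcls w ↔ ∃ (t : A) (σ : Equiv.Perm (Fin 3)), ∀ i, w (σ i) = t * v i :=
  ⟨fun h => Quotient.exact h, fun h => Quotient.sound h⟩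

section cls
variable {A : Type*} [CommGroup A]

theorem cls_comm12 (a b c : A) : cls a b c = cls b a c := by
  unfold cls
  rw [vcls_eq_iff]
  refine ⟨1, Equiv.swap 0 1, fun i => ?_⟩
  fin_cases i <;> simp [Equiv.swap_apply_def]

theorem cls_comm23 (a b c : A) : cls a b c = cls a c b := by
  unfold cls
  rw [vcls_eq_iff]
  refine ⟨1, Equiv.swap 1 2, fun i => ?_⟩
  fin_cases i <;> simp [Equiv.swap_apply_def]

theorem cls_smul (t a b c : A) : cls (t * a) (t * b) (t * c) = cls a b c := by
  unfold cls
  symm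
  rw [vcls_eq_iff]
  refine ⟨t, Equiv.refl _, fun i => ?_⟩
  fin_cases i <;> simp

theorem fiber_card [Fintype A] [DecidableEq A] (u v : A) (ω : Om A) :
    (univ.filter (fun t : A => cls u v t = ω)).card ≤ 9 := by
  obtain ⟨w, rfl⟩ : ∃ w, vcls w = ω := Quotient.exists_rep ω
  have hsub : univ.filter (fun t : A => cls u v t = vcls w) ⊆
      (univ : Finset (Fin 3 × Fin 3)).image (fun p => u * (w p.1)⁻¹ * w p.2) := by
    intro t ht
    rw [mem_filter] at ht
    obtain ⟨s, σ, h⟩ := (vcls_eq_iff _ _).1 ht.2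
    rw [mem_image]
    refine ⟨(σ 0, σ 2), mem_univ _, ?_⟩
    have h0 := h 0
    have h2 := h 2
    simp only [Matrix.cons_val_zero, Matrix.cons_val] at h0 h2
    simp only [h0, h2, mul_inv_rev]
    have : u * (u⁻¹ * s⁻¹) * (s * t) = t := by group
    exact this
  refine (card_le_card hsub).trans (card_image_le.trans ?_)
  simp

end cls

section count

open Classical in
/-- The number of elements of a finite type with a property. -/
noncomputable def cnt {X : Type*} [Fintype X] (P : X → Prop) : ℕ := (univ.filter P).card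

theorem cnt_mono {X : Type*} [Fintype X] {P Q : X → Prop} (h : ∀ x, P x → Q x) :
    cnt P ≤ cnt Q := by
  classical
  unfold cnt
  refine card_le_card fun x hx => ?_
  rw [mem_filter] at hx ⊢
  exact ⟨mem_univ _, h x hx.2⟩

theorem cnt_le_sum {X J : Type*} [Fintype X] [Fintype J] {P : X → Prop} {Q : J → X → Prop}
    (h : ∀ x, P x → ∃ j, Q j x) : cnt P ≤ ∑ j, cnt (Q j) := by
  classical
  unfold cnt
  refine le_trans (card_le_card ?_) card_biUnion_le
  intro x hx
  rw [mem_filter] at hx
  obtain ⟨j, hj⟩ := h x hx.2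
  rw [mem_biUnion]
  exact ⟨j, mem_univ _, by rw [mem_filter]; exact ⟨mem_univ _, hj⟩⟩

theorem cnt_add_not {X : Type*} [Fintype X] (P : X → Prop) :
    cnt P + cnt (fun x => ¬ P x) = Fintype.card X := by
  classical
  unfold cnt
  have := card_filter_add_card_filter_not (s := (univ : Finset X)) P
  rw [card_univ] at this
  convert this

theorem cnt_congr {X : Type*} [Fintype X] {P Q : X → Prop} (h : ∀ x, P x ↔ Q x) :
    cnt P = cnt Q :=
  le_antisymm (cnt_mono fun x => (h x).1) (cnt_mono fun x => (h x).2)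

theorem cnt_split {X : Type*} [Fintype X] (P Q : X → Prop) :
    cnt (fun x => P x ∧ Q x) + cnt (fun x => P x ∧ ¬ Q x) = cnt P := by
  classical
  unfold cnt
  have := card_filter_add_card_filter_not (s := (univ : Finset X).filter P) Q
  rw [filter_filter, filter_filter] at this
  convert this

theorem cnt_eq_card {X : Type*} [Fintype X] (P : X → Prop) [Fintype {x // P x}] :
    cnt P = Fintype.card {x // P x} := by
  classical
  unfold cnt
  rw [Fintype.card_subtype]

variable {Ω : Type*} [Fintype Ω] [DecidableEq Ω]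

theorem step_card (P : Finset Ω → Prop) (a b : Ω)
    (h : ∀ N, P N → P (insert a (insert b N))) :
    cnt P ≤ 4 * cnt (fun N => P N ∧ (a ∈ N ∧ b ∈ N)) := by
  classical
  unfold cnt
  have := card_le_card_of_injOn (s := univ.filter P)
    (t := (univ.filter (fun N => P N ∧ (a ∈ N ∧ b ∈ N))) ×ˢ (univ : Finset (Bool × Bool)))
    (fun N => (insert a (insert b N), decide (a ∈ N), decide (b ∈ N)))
    (by
      intro N hN
      simp only [coe_filter, mem_univ, true_and, Set.mem_ofPred_eq] at hN
      simp only [coe_product, Set.mem_prod, mem_coe, mem_filter, mem_univ, true_and, and_true]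
      exact ⟨h N hN, by simp, by simp⟩)
    (by
      intro N hN M hM hNM
      simp only [Prod.mk.injEq, decide_eq_decide] at hNM
      obtain ⟨h1, h2, h3⟩ := hNM
      ext x
      by_cases hxa : x = a
      · subst hxa; exact h2
      by_cases hxb : x = b
      · subst hxb; exact h3
      have := congrArg (fun T : Finset Ω => x ∈ T) h1
      simpa [hxa, hxb] using this)
  rw [card_product] at this
  have hc : (univ : Finset (Bool × Bool)).card = 4 := by simp
  rw [hc, mul_comm] at this
  convert this

theorem pairs_card {T : Type*} (α β : T → Ω) (I : Finset T)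
    (hI : ∀ t ∈ I, ∀ t' ∈ I, t ≠ t' → α t ≠ α t' ∧ α t ≠ β t' ∧ β t ≠ α t' ∧ β t ≠ β t') :
    4 ^ I.card * cnt (fun N : Finset Ω => ∀ t ∈ I, ¬ (α t ∈ N ∧ β t ∈ N)) ≤
      3 ^ I.card * 2 ^ Fintype.card Ω := by
  classical
  induction I using Finset.induction_on with
  | empty => simp [cnt]
  | insert t0 I ht0 ih =>
    have ih' := ih (fun t ht t' ht' hne =>
      hI t (mem_insert_of_mem ht) t' (mem_insert_of_mem ht') hne)
    have h1 := step_card (fun N : Finset Ω => ∀ t ∈ I, ¬ (α t ∈ N ∧ β t ∈ N)) (α t0) (β t0) (by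
      intro N hN t ht
      have hne : t ≠ t0 := fun h => ht0 (h ▸ ht)
      obtain ⟨a1, a2, a3, a4⟩ := hI t (mem_insert_of_mem ht) t0 (mem_insert_self _ _) hne
      have := hN t ht
      simpa [a1, a2, a3, a4] using this)
    have h3 : cnt (fun N : Finset Ω => (∀ t ∈ I, ¬ (α t ∈ N ∧ β t ∈ N)) ∧ (α t0 ∈ N ∧ β t0 ∈ N)) +
        cnt (fun N : Finset Ω => ∀ t ∈ insert t0 I, ¬ (α t ∈ N ∧ β t ∈ N)) =
        cnt (fun N : Finset Ω => ∀ t ∈ I, ¬ (α t ∈ N ∧ β t ∈ N)) := by
      have := cnt_split (fun N : Finset Ω => ∀ t ∈ I, ¬ (α t ∈ N ∧ β t ∈ N))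
        (fun N => α t0 ∈ N ∧ β t0 ∈ N)
      rw [← this]
      congr 1
      apply cnt_congr
      intro N
      rw [forall_mem_insert]
      tauto
    set u := cnt (fun N : Finset Ω => (∀ t ∈ I, ¬ (α t ∈ N ∧ β t ∈ N)) ∧ (α t0 ∈ N ∧ β t0 ∈ N))
    set v := cnt (fun N : Finset Ω => ∀ t ∈ insert t0 I, ¬ (α t ∈ N ∧ β t ∈ N))
    set w := cnt (fun N : Finset Ω => ∀ t ∈ I, ¬ (α t ∈ N ∧ β t ∈ N))
    rw [card_insert_of_notMem ht0, pow_succ, pow_succ]
    have h4 : 4 * v ≤ 3 * w := by omega
    calc 4 ^ I.card * 4 * v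
        = 4 ^ I.card * (4 * v) := by ring
      _ ≤ 4 ^ I.card * (3 * w) := Nat.mul_le_mul_left _ h4
      _ = 3 * (4 ^ I.card * w) := by ring
      _ ≤ 3 * (3 ^ I.card * 2 ^ Fintype.card Ω) := Nat.mul_le_mul_left _ ih'
      _ = 3 ^ I.card * 3 * 2 ^ Fintype.card Ω := by ring

omit [Fintype Ω] in
theorem greedy {T : Type*} [Fintype T] [DecidableEq T] (α β : T → Ω)
    (hα : ∀ ω, (univ.filter (fun t => α t = ω)).card ≤ 9)
    (hβ : ∀ ω, (univ.filter (fun t => β t = ω)).card ≤ 9) (k : ℕ) (hk : 36 * k ≤ Fintype.card T) :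
    ∃ I : Finset T, I.card = k ∧
      ∀ t ∈ I, ∀ t' ∈ I, t ≠ t' → α t ≠ α t' ∧ α t ≠ β t' ∧ β t ≠ α t' ∧ β t ≠ β t' := by
  induction k with
  | zero => exact ⟨∅, by simp, by simp⟩
  | succ k ih =>
    obtain ⟨I, hIc, hI⟩ := ih (by omega)
    set U := I.image α ∪ I.image β with hU
    have hUc : U.card ≤ 2 * k := by
      refine (card_union_le _ _).trans ?_
      have := card_image_le (s := I) (f := α)
      have := card_image_le (s := I) (f := β)
      omega
    set bad := U.biUnion (fun ω => univ.filter (fun t => α t = ω)) ∪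
      U.biUnion (fun ω => univ.filter (fun t => β t = ω)) with hbad
    have hbc : bad.card ≤ 36 * k := by
      refine (card_union_le _ _).trans ?_
      have b1 := card_biUnion_le_card_mul U (fun ω => univ.filter (fun t => α t = ω)) 9
        (fun ω _ => hα ω)
      have b2 := card_biUnion_le_card_mul U (fun ω => univ.filter (fun t => β t = ω)) 9
        (fun ω _ => hβ ω)
      omega
    obtain ⟨t0, ht0⟩ : ∃ t0, t0 ∉ bad := by
      by_contra hcon
      push Not at hcon
      have : bad = univ := by ext t; simp [hcon t]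
      rw [this, card_univ] at hbc
      omega
    have hgood : α t0 ∉ U ∧ β t0 ∉ U := by
      constructor
      · intro h
        apply ht0
        rw [hbad, mem_union]
        left
        rw [mem_biUnion]
        exact ⟨_, h, by simp⟩
      · intro h
        apply ht0
        rw [hbad, mem_union]
        right
        rw [mem_biUnion]
        exact ⟨_, h, by simp⟩
    have hg : ∀ t ∈ I, α t0 ≠ α t ∧ α t0 ≠ β t ∧ β t0 ≠ α t ∧ β t0 ≠ β t := by
      intro t ht
      have u1 : α t ∈ U := by rw [hU, mem_union]; left; exact mem_image_of_mem _ ht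
      have u2 : β t ∈ U := by rw [hU, mem_union]; right; exact mem_image_of_mem _ ht
      refine ⟨?_, ?_, ?_, ?_⟩
      · intro h; exact hgood.1 (h ▸ u1)
      · intro h; exact hgood.1 (h ▸ u2)
      · intro h; exact hgood.2 (h ▸ u1)
      · intro h; exact hgood.2 (h ▸ u2)
    have ht0I : t0 ∉ I := fun h => (hg t0 h).1 rfl
    refine ⟨insert t0 I, by rw [card_insert_of_notMem ht0I, hIc], ?_⟩
    intro t ht t' ht' hne
    rw [mem_insert] at ht ht'
    rcases ht with rfl | ht <;> rcases ht' with rfl | ht'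
    · exact absurd rfl hne
    · exact hg t' ht'
    · obtain ⟨a1, a2, a3, a4⟩ := hg t ht
      exact ⟨a1.symm, a3.symm, a2.symm, a4.symm⟩
    · exact hI t ht t' ht' hne

end count

section gen

variable {A : Type*} [CommGroup A] [Fintype A]

/-- A set of classes is generic if any two pairs are linked by some element. -/
def Gen (ε : A) (N : Finset (Om A)) : Prop :=
  ∀ x y z w : A, ∃ t : A, cls x y (ε * t) ∈ N ∧ cls t z (ε * w) ∈ N

theorem gen_card (ε : A) (k : ℕ) (hk : 36 * k ≤ Fintype.card A)
    (hk' : 2 * (Fintype.card A) ^ 4 * 3 ^ k ≤ 4 ^ k) :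
    2 ^ Fintype.card (Om A) ≤ 2 * cnt (fun N : Finset (Om A) => Gen ε N) := by
  classical
  have hbadq : ∀ q : A × A × A × A, 4 ^ k * cnt (fun N : Finset (Om A) =>
      ∀ t : A, ¬ (cls q.1 q.2.1 (ε * t) ∈ N ∧ cls t q.2.2.1 (ε * q.2.2.2) ∈ N))
      ≤ 3 ^ k * 2 ^ Fintype.card (Om A) := by
    rintro ⟨x, y, z, w⟩
    obtain ⟨I, hIc, hI⟩ := greedy (Ω := Om A) (fun t : A => cls x y (ε * t))
      (fun t : A => cls t z (ε * w))
      (by
        intro ω
        refine le_trans ?_ (fiber_card x y ω)
        refine card_le_card_of_injOn (fun t => ε * t) ?_ ?_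
        · intro t ht
          simpa using ht
        · intro t _ t' _ h
          simpa using h)
      (by
        intro ω
        refine le_trans (le_of_eq ?_) (fiber_card z (ε * w) ω)
        congr 1
        ext t
        simp only [mem_filter, mem_univ, true_and]
        rw [cls_comm12 t, cls_comm23 z t]) k hk
    have := pairs_card (Ω := Om A) (fun t : A => cls x y (ε * t))
      (fun t : A => cls t z (ε * w)) I hI
    rw [hIc] at this
    refine le_trans (Nat.mul_le_mul_left _ (cnt_mono ?_)) this
    intro N hN t _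
    exact hN t
  have hbad : 4 ^ k * cnt (fun N : Finset (Om A) => ¬ Gen ε N) ≤
      (Fintype.card A) ^ 4 * (3 ^ k * 2 ^ Fintype.card (Om A)) := by
    have hcover := cnt_le_sum (J := A × A × A × A) (P := fun N : Finset (Om A) => ¬ Gen ε N)
      (Q := fun q N =>
      ∀ t : A, ¬ (cls q.1 q.2.1 (ε * t) ∈ N ∧ cls t q.2.2.1 (ε * q.2.2.2) ∈ N)) (by
        intro N hN
        unfold Gen at hN
        push Not at hN
        obtain ⟨x, y, z, w, h⟩ := hN
        exact ⟨(x, y, z, w), fun t ht => h t ht.1 ht.2⟩)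
    refine le_trans (Nat.mul_le_mul_left _ hcover) ?_
    rw [mul_sum]
    refine le_trans (sum_le_sum (fun q _ => hbadq q)) ?_
    rw [sum_const, card_univ, smul_eq_mul]
    simp only [Fintype.card_prod]
    apply le_of_eq
    ring
  have hsum := cnt_add_not (fun N : Finset (Om A) => Gen ε N)
  rw [Fintype.card_finset] at hsum
  set g := cnt (fun N : Finset (Om A) => Gen ε N)
  set b := cnt (fun N : Finset (Om A) => ¬ Gen ε N)
  set W := 2 ^ Fintype.card (Om A)
  have h4 : 0 < 4 ^ k := by positivity
  have : 4 ^ k * (2 * b) ≤ 4 ^ k * W := by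
    calc 4 ^ k * (2 * b) = 2 * (4 ^ k * b) := by ring
      _ ≤ 2 * ((Fintype.card A) ^ 4 * (3 ^ k * W)) := Nat.mul_le_mul_left _ hbad
      _ = (2 * (Fintype.card A) ^ 4 * 3 ^ k) * W := by ring
      _ ≤ 4 ^ k * W := Nat.mul_le_mul_right _ hk'
  have := Nat.le_of_mul_le_mul_left this h4
  omega

/-- Sets of classes containing all classes of the form (1, ε, a) are few. -/
theorem big_card (ε : A) :
    2 ^ (Fintype.card A / 9) * cnt (fun N : Finset (Om A) => ∀ a : A, cls 1 ε a ∈ N) ≤
      2 ^ Fintype.card (Om A) := by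
  classical
  set T : Finset (Om A) := univ.image (fun a : A => cls 1 ε a) with hT
  have hTc : Fintype.card A ≤ 9 * T.card := by
    have := card_le_mul_card_image (s := (univ : Finset A)) (f := fun a : A => cls 1 ε a) 9
      (fun ω _ => fiber_card 1 ε ω)
    simpa using this
  have hle : Fintype.card A / 9 ≤ T.card := by omega
  have hinj : (T.powerset ×ˢ (univ : Finset (Finset (Om A))).filter
      (fun N => ∀ a : A, cls 1 ε a ∈ N)).card ≤ (univ : Finset (Finset (Om A))).card := by
    refine card_le_card_of_injOn (fun p => p.2 \ p.1) (fun _ _ => mem_univ _) ?_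
    rintro ⟨B, N⟩ h ⟨B', N'⟩ h' heq
    simp only [coe_product, Set.mem_prod, mem_coe, mem_powerset, mem_filter, mem_univ,
      true_and] at h h' heq
    have hN : T ⊆ N := by
      intro ω hω
      rw [hT, mem_image] at hω
      obtain ⟨a, _, rfl⟩ := hω
      exact h.2 a
    have hN' : T ⊆ N' := by
      intro ω hω
      rw [hT, mem_image] at hω
      obtain ⟨a, _, rfl⟩ := hω
      exact h'.2 a
    have key : ∀ ω, (ω ∈ N ∧ ω ∉ B) ↔ (ω ∈ N' ∧ ω ∉ B') := by
      intro ω
      have := congrArg (fun X : Finset (Om A) => ω ∈ X) heq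
      simpa using this
    have h1 : B = B' := by
      ext ω
      have k := key ω
      constructor
      · intro hω
        by_contra hcon
        have := hN' (h.1 hω)
        exact (k.2 ⟨this, hcon⟩).2 hω
      · intro hω
        by_contra hcon
        have := hN (h'.1 hω)
        exact (k.1 ⟨this, hcon⟩).2 hω
    subst h1
    refine Prod.ext rfl ?_
    ext ω
    have k := key ω
    by_cases hω : ω ∈ B
    · exact ⟨fun _ => hN' (h.1 hω), fun _ => hN (h.1 hω)⟩
    · simpa [hω] using k
  rw [card_product, card_powerset, card_univ, Fintype.card_finset] at hinj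
  refine le_trans (Nat.mul_le_mul_right _ (Nat.pow_le_pow_right (by norm_num) hle)) ?_
  refine le_trans (le_of_eq ?_) hinj
  unfold cnt
  congr

theorem card_Om_ge : Fintype.card A / 9 ≤ Fintype.card (Om A) := by
  classical
  have := card_le_mul_card_image (s := (univ : Finset A)) (f := fun a : A => cls 1 1 a) 9
    (fun ω _ => fiber_card 1 1 ω)
  have h2 : (univ.image (fun a : A => cls 1 1 a)).card ≤ Fintype.card (Om A) := card_le_univ _
  rw [card_univ] at this
  omega

end gen

end Pool.Agent.Helper96_HF
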