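import Mathlib
import Pool.Agent.Helper96_HF.Orb
import Pool.Agent.Helper96_HF.FieldFacts

set_option autoImplicit false

/-!
Hyperfield structures built from a finite abelian group, an element of order at most two and a set
of classes of triples; quotient hyperfields of fields in this form.
-/

namespace Pool.Agent.Helper96_HF

open Finset

/-- The hyperfield axioms for a multiplication `m` and hyperaddition `s` with zero `z`. -/
def HypAx {X : Type*} (z : X) (m : X → X → X) (s : X → X → Set X) : Prop :=
  (∃ u : X, u ≠ z ∧ ∀ a, m u a = a) ∧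
  (∀ a b, m a b = m b a) ∧
  (∀ a b c, m (m a b) c = m a (m b c)) ∧
  (∀ a, m z a = z) ∧
  (∀ a b, a ≠ z → b ≠ z → m a b ≠ z) ∧
  (∀ a, a ≠ z → ∃ b, ∀ c, m (m a b) c = c) ∧
  (∀ a b, (s a b).Nonempty) ∧
  (∀ a b, s a b = s b a) ∧
  (∀ a b c, (⋃ x ∈ s a b, s x c) = ⋃ x ∈ s b c, s a x) ∧
  (∀ a, s z a = {a}) ∧
  (∀ a, ∃! b, z ∈ s a b) ∧
  (∀ a b c d, a ∈ s b c → z ∈ s b d → c ∈ s a d) ∧
  (∀ a b c, (fun x => m a x) '' s b c = s (m a b) (m a c))

theorem HypAx.transport {X Y : Type*} {z : X} {m : X → X → X} {s : X → X → Set X}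
    (h : HypAx z m s) (e : X ≃ Y) :
    HypAx (e z) (fun a b => e (m (e.symm a) (e.symm b)))
      (fun a b => e '' s (e.symm a) (e.symm b)) := by
  obtain ⟨⟨u, hu, hu'⟩, h2, h3, h4, h5, h6, h7, h8, h9, h10, h11, h12, h13⟩ := h
  refine ⟨⟨e u, by simpa using hu, ?_⟩, ?_, ?_, ?_, ?_, ?_, ?_, ?_, ?_, ?_, ?_, ?_, ?_⟩
  · intro a; simp [hu']
  · intro a b; simp [h2 (e.symm a)]
  · intro a b c; simp [h3]
  · intro a; simp [h4]
  · intro a b ha hb hab
    have := e.injective hab
    refine h5 _ _ ?_ ?_ this
    · rintro h; exact ha (by rw [← h]; simp)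
    · rintro h; exact hb (by rw [← h]; simp)
  · intro a ha
    obtain ⟨b, hb⟩ := h6 (e.symm a) (by rintro h; exact ha (by rw [← h]; simp))
    exact ⟨e b, fun c => by simp [hb]⟩
  · intro a b; exact (h7 _ _).image _
  · intro a b; simp only [h8 (e.symm a)]
  · intro a b c
    have := congrArg (fun T => e '' T) (h9 (e.symm a) (e.symm b) (e.symm c))
    simp only [Set.image_iUnion] at this
    simp only [Set.biUnion_image, Equiv.symm_apply_apply]
    exact this
  · intro a; simp [h10]
  · intro a
    obtain ⟨b, hb, hb'⟩ := h11 (e.symm a)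
    refine ⟨e b, ?_, ?_⟩
    · simpa using hb
    · intro c hc
      have := hb' (e.symm c) (by simpa using hc)
      rw [← this]; simp
  · intro a b c d ha hz
    have := h12 (e.symm a) (e.symm b) (e.symm c) (e.symm d) (by
      obtain ⟨x, hx, rfl⟩ := ha
      simpa using hx) (by simpa using hz)
    exact ⟨_, this, by simp⟩
  · intro a b c
    have := congrArg (fun T => e '' T) (h13 (e.symm a) (e.symm b) (e.symm c))
    simp only [Set.image_image] at this ⊢
    simpa using this

/-- Multiplication on a group with zero, the zero being `none`. -/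
def mulO {A : Type*} [Mul A] : Option A → Option A → Option A
  | some a, some b => some (a * b)
  | _, _ => none

@[simp] theorem mulO_none_left {A : Type*} [Mul A] (b : Option A) : mulO none b = none := by
  cases b <;> rfl

@[simp] theorem mulO_none_right {A : Type*} [Mul A] (b : Option A) : mulO b none = none := by
  cases b <;> rfl

@[simp] theorem mulO_some {A : Type*} [Mul A] (a b : A) :
    mulO (some a) (some b) = some (a * b) := rfl

/-- The hyperaddition attached to `ε` and a set of classes of triples. -/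
def addO {A : Type*} [CommGroup A] (ε : A) (N : Finset (Om A)) :
    Option A → Option A → Set (Option A)
  | none, y => {y}
  | some a, none => {some a}
  | some a, some b => {c | (c = none ∧ b = ε * a) ∨ ∃ d, c = some d ∧ cls a b (ε * d) ∈ N}

section addO
variable {A : Type*} [CommGroup A] (ε : A) (N : Finset (Om A))

@[simp] theorem addO_none_left (b : Option A) : addO ε N none b = {b} := rfl

@[simp] theorem addO_none_right (b : Option A) : addO ε N b none = {b} := by
  cases b <;> rfl

@[simp] theorem none_mem_addO (a b : A) : none ∈ addO ε N (some a) (some b) ↔ b = ε * a := by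
  simp [addO]

@[simp] theorem some_mem_addO (a b c : A) :
    some c ∈ addO ε N (some a) (some b) ↔ cls a b (ε * c) ∈ N := by
  simp [addO]

variable {ε N}

theorem hyp_of_gen (hε : ε * ε = 1) (hN : Gen ε N) : HypAx none mulO (addO ε N) := by
  have hεε : ∀ a : A, ε * (ε * a) = a := fun a => by rw [← mul_assoc, hε, one_mul]
  have hcomm : ∀ a b, addO ε N a b = addO ε N b a := by
    rintro (_ | a) (_ | b)
    · simp
    · simp
    · simp
    · ext c
      rcases c with _ | c
      · simp only [none_mem_addO]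
        constructor
        · rintro rfl; rw [hεε]
        · rintro rfl; rw [hεε]
      · simp only [some_mem_addO]
        rw [cls_comm12]
  have hne : ∀ a b, (addO ε N a b).Nonempty := by
    rintro (_ | a) (_ | b)
    · simp
    · simp
    · simp
    · obtain ⟨t, ht, -⟩ := hN a b 1 1
      exact ⟨some t, (some_mem_addO _ _ _ _ _).2 ht⟩
  refine ⟨⟨some 1, by simp, ?_⟩, ?_, ?_, ?_, ?_, ?_, hne, hcomm, ?_, ?_, ?_, ?_, ?_⟩
  · rintro (_ | a) <;> simp
  · rintro (_ | a) (_ | b) <;> simp [mul_comm]
  · rintro (_ | a) (_ | b) (_ | c) <;> simp [mul_assoc]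
  · intro a; simp
  · rintro (_ | a) (_ | b) <;> simp
  · rintro (_ | a) ha
    · exact absurd rfl ha
    · refine ⟨some a⁻¹, ?_⟩
      rintro (_ | c) <;> simp
  · rintro (_ | a) b c
    · simp
    rcases b with _ | b
    · simp
    rcases c with _ | c
    · simp
    have key : ∀ a b c : A, ∀ w : Option A, (w ∈ ⋃ x ∈ addO ε N (some a) (some b), addO ε N x (some c)) ↔
        (w ≠ none ∨ cls a b c ∈ N) := by
      intro a b c w
      simp only [Set.mem_iUnion, exists_prop]
      rcases w with _ | w
      · simp only [ne_eq, not_true_eq_false, false_or]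
        constructor
        · rintro ⟨x, hx, hx'⟩
          rcases x with _ | x
          · simp at hx'
          · rw [none_mem_addO] at hx'
            rw [some_mem_addO] at hx
            rw [hx']; exact hx
        · intro h
          refine ⟨some (ε * c), ?_, ?_⟩
          · rw [some_mem_addO, hεε]; exact h
          · rw [none_mem_addO, hεε]
      · simp only [ne_eq, reduceCtorEq, not_false_eq_true, true_or, iff_true]
        obtain ⟨t, ht, ht'⟩ := hN a b c w
        exact ⟨some t, (some_mem_addO _ _ _ _ _).2 ht, (some_mem_addO _ _ _ _ _).2 ht'⟩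
    have hR : (⋃ x ∈ addO ε N (some b) (some c), addO ε N (some a) x) =
        ⋃ x ∈ addO ε N (some b) (some c), addO ε N x (some a) := by
      refine Set.iUnion_congr fun x => Set.iUnion_congr fun _ => hcomm _ _
    rw [hR]
    ext w
    rw [key, key, cls_comm12 b c a, cls_comm23 c b a, cls_comm12 c a b, cls_comm23 a c b]
  · intro a; simp
  · rintro (_ | a)
    · refine ⟨none, by simp, ?_⟩
      intro y hy
      simpa using hy.symm
    · refine ⟨some (ε * a), by simp, ?_⟩
      rintro (_ | b) hb
      · simp at hb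
      · simpa using hb
  · rintro a (_ | b) c d ha hd
    · simp only [addO_none_left, Set.mem_singleton_iff] at ha hd
      subst ha; subst hd; simp
    · rcases d with _ | d
      · simp at hd
      rw [none_mem_addO] at hd
      subst hd
      rcases c with _ | c
      · simp only [addO_none_right, Set.mem_singleton_iff] at ha
        subst ha
        simp
      · rcases a with _ | a
        · rw [none_mem_addO] at ha
          subst ha; simp
        · rw [some_mem_addO] at ha ⊢
          rw [← cls_smul ε, hεε, hεε, cls_comm12, cls_comm23 b]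
          exact ha
  · rintro (_ | a) b c
    · simp only [mulO_none_left, addO_none_left]
      exact (hne b c).image_const _
    · rcases b with _ | b
      · simp
      rcases c with _ | c
      · simp
      ext w
      simp only [Set.mem_image, mulO_some]
      rcases w with _ | w
      · rw [none_mem_addO]
        constructor
        · rintro ⟨x, hx, hx'⟩
          rcases x with _ | x
          · rw [none_mem_addO] at hx
            rw [hx]; rw [mul_left_comm]
          · simp at hx'
        · intro h
          refine ⟨none, ?_, by simp⟩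
          rw [none_mem_addO]
          have : a * c = a * (ε * b) := by rw [h, mul_left_comm]
          exact mul_left_cancel this
      · rw [some_mem_addO]
        constructor
        · rintro ⟨x, hx, hx'⟩
          rcases x with _ | x
          · simp at hx'
          · rw [some_mem_addO] at hx
            simp only [mulO_some, Option.some.injEq] at hx'
            subst hx'
            rw [mul_left_comm ε, cls_smul]
            exact hx
        · intro h
          refine ⟨some (a⁻¹ * w), ?_, by simp⟩
          rw [some_mem_addO, ← cls_smul a, mul_left_comm a ε, mul_inv_cancel_left]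
          exact h

end addO

/-- `(X, z, m, s)` is the quotient of the field `K` by `G` through `f`. -/
def QData (K : Type*) [Field K] (G : Subgroup Kˣ) {X : Type*} (z : X) (f : K → X)
    (m : X → X → X) (s : X → X → Set X) : Prop :=
  Function.Surjective f ∧ f 0 = z ∧
    (∀ x y : K, f x = f y ↔ ∃ g ∈ G, y = x * (g : K)) ∧
    (∀ x y : K, f (x * y) = m (f x) (f y)) ∧
    (∀ x y : K, s (f x) (f y) = {z | ∃ g ∈ G, ∃ h ∈ G, z = f (x * (g : K) + y * (h : K))})

theorem QData.iso {K K' : Type*} [Field K] [Field K'] {G : Subgroup Kˣ} {G' : Subgroup K'ˣ}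
    {X Y : Type*} {z : X} {z' : Y} {f : K → X} {f' : K' → Y} {m : X → X → X} {m' : Y → Y → Y}
    {s : X → X → Set X} {s' : Y → Y → Set Y} (h : QData K G z f m s) (h' : QData K' G' z' f' m' s')
    (φ : K ≃+* K') (hφ : ∀ x : Kˣ, x ∈ G ↔ Units.map (φ : K →* K') x ∈ G') :
    ∃ e : X ≃ Y, (∀ a b, e (m a b) = m' (e a) (e b) ∧ e '' s a b = s' (e a) (e b)) ∧
      (∀ x, e (f x) = f' (φ x)) := by
  obtain ⟨h1, h2, h3, h4, h5⟩ := h
  obtain ⟨h1', h2', h3', h4', h5'⟩ := h'
  have key : ∀ x y : K, f x = f y ↔ f' (φ x) = f' (φ y) := by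
    intro x y
    rw [h3, h3']
    constructor
    · rintro ⟨g, hg, rfl⟩
      exact ⟨_, (hφ g).1 hg, by simp⟩
    · rintro ⟨g', hg', hy⟩
      refine ⟨Units.map (φ.symm : K' →* K) g', ?_, ?_⟩
      · rw [hφ]
        have : Units.map (φ : K →* K') (Units.map (φ.symm : K' →* K) g') = g' := by
          ext; simp
        rw [this]; exact hg'
      · apply φ.injective
        rw [hy]; simp
  choose t ht using h1
  have hsurj : Function.Surjective (fun x : X => f' (φ (t x))) := by
    intro y
    obtain ⟨k', rfl⟩ := h1' y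
    refine ⟨f (φ.symm k'), ?_⟩
    have := (key (t (f (φ.symm k'))) (φ.symm k')).1 (ht _)
    simpa using this
  have hinj : Function.Injective (fun x : X => f' (φ (t x))) := by
    intro x y hxy
    have := (key (t x) (t y)).2 hxy
    rwa [ht, ht] at this
  let e : X ≃ Y := Equiv.ofBijective _ ⟨hinj, hsurj⟩
  have he : ∀ x, e (f x) = f' (φ x) := fun x => (key _ _).1 (ht (f x))
  refine ⟨e, ?_, he⟩
  intro a b
  obtain ⟨x, rfl⟩ : ∃ x, f x = a := ⟨t a, ht a⟩
  obtain ⟨y, rfl⟩ : ∃ y, f y = b := ⟨t b, ht b⟩
  refine ⟨?_, ?_⟩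
  · rw [← h4, he, he, he, map_mul, h4']
  · rw [h5, he, he, h5']
    ext w
    simp only [Set.mem_image, Set.mem_ofPred_eq]
    constructor
    · rintro ⟨u, ⟨g, hg, k, hk, rfl⟩, rfl⟩
      refine ⟨_, (hφ g).1 hg, _, (hφ k).1 hk, ?_⟩
      rw [he]; simp
    · rintro ⟨g', hg', k', hk', rfl⟩
      refine ⟨f (φ.symm (φ x * g' + φ y * k')), ⟨Units.map (φ.symm : K' →* K) g', ?_,
        Units.map (φ.symm : K' →* K) k', ?_, ?_⟩, ?_⟩
      · rw [hφ]
        have : Units.map (φ : K →* K') (Units.map (φ.symm : K' →* K) g') = g' := by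
          ext; simp
        rw [this]; exact hg'
      · rw [hφ]
        have : Units.map (φ : K →* K') (Units.map (φ.symm : K' →* K) k') = k' := by
          ext; simp
        rw [this]; exact hk'
      · congr 1; simp
      · rw [he]; simp

section fromField

variable {K A : Type*} [Field K] [CommGroup A]

open Classical in
/-- The quotient map onto the group with zero. -/
noncomputable def fO (ψ : Kˣ →* A) (x : K) : Option A :=
  if h : x = 0 then none else some (ψ (Units.mk0 x h))

@[simp] theorem fO_zero (ψ : Kˣ →* A) : fO ψ (0 : K) = none := by simp [fO]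

theorem fO_unit (ψ : Kˣ →* A) (x : Kˣ) : fO ψ (x : K) = some (ψ x) := by
  simp [fO]

theorem fO_eq_none (ψ : Kˣ →* A) (x : K) : fO ψ x = none ↔ x = 0 := by
  unfold fO
  split_ifs with h <;> simp [h]

open Classical in
/-- The classes of triples with sum zero. -/
noncomputable def NO [Fintype A] (ψ : Kˣ →* A) : Finset (Om A) :=
  univ.filter (fun ω => ∃ v : Fin 3 → Kˣ, ∑ i, (v i : K) = 0 ∧ ω = vcls (fun i => ψ (v i)))

theorem mem_NO [Fintype A] (ψ : Kˣ →* A) (hψ : Function.Surjective ψ) (a b c : A) :
    cls a b c ∈ NO ψ ↔ ∃ x y z : Kˣ, ψ x = a ∧ ψ y = b ∧ ψ z = c ∧ (x : K) + y + z = 0 := by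
  classical
  unfold NO
  rw [mem_filter]
  constructor
  · rintro ⟨-, v, hv, h⟩
    rw [eq_comm] at h
    obtain ⟨t, σ, hσ⟩ := (vcls_eq_iff _ _).1 h
    obtain ⟨t', rfl⟩ := hψ t
    have key : ∀ j, ![a, b, c] j = ψ (t' * v (σ.symm j)) := by
      intro j
      have := hσ (σ.symm j)
      rw [Equiv.apply_symm_apply] at this
      rw [this, map_mul]
    refine ⟨t' * v (σ.symm 0), t' * v (σ.symm 1), t' * v (σ.symm 2), (key 0).symm, (key 1).symm,
      (key 2).symm, ?_⟩
    have h1 : ∑ j, ((v (σ.symm j) : Kˣ) : K) = 0 := by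
      rw [← hv]
      exact Equiv.sum_comp σ.symm (fun i => ((v i : Kˣ) : K))
    rw [Fin.sum_univ_three] at h1
    simp only [Units.val_mul]
    linear_combination (t' : K) * h1
  · rintro ⟨x, y, z, rfl, rfl, rfl, h⟩
    refine ⟨mem_univ _, ![x, y, z], ?_, ?_⟩
    · rw [Fin.sum_univ_three]
      simpa using h
    · unfold cls
      congr 1
      ext i
      fin_cases i <;> rfl

theorem QData_O [Fintype A] (G : Subgroup Kˣ) (ψ : Kˣ →* A) (hψ : Function.Surjective ψ)
    (hker : ∀ x, ψ x = 1 ↔ x ∈ G) :
    QData K G none (fO ψ) mulO (addO (ψ (-1)) (NO ψ)) := by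
  classical
  have hε : ψ (-1) * ψ (-1) = 1 := by rw [← map_mul]; simp
  have hneg : ∀ x : Kˣ, ψ (-x) = ψ (-1) * ψ x := fun x => by rw [← map_mul]; simp
  have heq : ∀ x y : Kˣ, ψ x = ψ y ↔ ∃ g ∈ G, y = x * g := by
    intro x y
    constructor
    · intro h
      refine ⟨x⁻¹ * y, ?_, by simp⟩
      rw [← hker, map_mul, map_inv, h, inv_mul_cancel]
    · rintro ⟨g, hg, rfl⟩
      rw [map_mul, (hker g).2 hg, mul_one]
  have hfx : ∀ (x : K) (g : Kˣ), g ∈ G → fO ψ (x * (g : K)) = fO ψ x := by
    intro x g hg
    by_cases hx : x = 0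
    · simp [hx]
    · obtain ⟨u, rfl⟩ : ∃ u : Kˣ, (u : K) = x := ⟨Units.mk0 x hx, rfl⟩
      rw [← Units.val_mul, fO_unit, fO_unit, map_mul, (hker g).2 hg, mul_one]
  refine ⟨?_, fO_zero ψ, ?_, ?_, ?_⟩
  · rintro (_ | a)
    · exact ⟨0, fO_zero ψ⟩
    · obtain ⟨x, rfl⟩ := hψ a
      exact ⟨x, fO_unit ψ x⟩
  · intro x y
    constructor
    · intro h
      by_cases hx : x = 0
      · subst hx
        rw [fO_zero, eq_comm, fO_eq_none] at h
        exact ⟨1, G.one_mem, by simp [h]⟩
      · have hy : y ≠ 0 := by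
          rintro rfl
          rw [fO_zero, fO_eq_none] at h
          exact hx h
        obtain ⟨u, rfl⟩ : ∃ u : Kˣ, (u : K) = x := ⟨Units.mk0 x hx, rfl⟩
        obtain ⟨v, rfl⟩ : ∃ u : Kˣ, (u : K) = y := ⟨Units.mk0 y hy, rfl⟩
        rw [fO_unit, fO_unit, Option.some.injEq, heq] at h
        obtain ⟨g, hg, rfl⟩ := h
        exact ⟨g, hg, by simp⟩
    · rintro ⟨g, hg, rfl⟩
      exact (hfx x g hg).symm
  · intro x y
    by_cases hx : x = 0
    · simp [hx]
    by_cases hy : y = 0
    · simp [hy]
    obtain ⟨u, rfl⟩ : ∃ u : Kˣ, (u : K) = x := ⟨Units.mk0 x hx, rfl⟩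
    obtain ⟨v, rfl⟩ : ∃ u : Kˣ, (u : K) = y := ⟨Units.mk0 y hy, rfl⟩
    rw [← Units.val_mul, fO_unit, fO_unit, fO_unit, map_mul, mulO_some]
  · intro x y
    by_cases hx : x = 0
    · subst hx
      rw [fO_zero, addO_none_left]
      ext w
      simp only [Set.mem_singleton_iff, Set.mem_ofPred_eq]
      constructor
      · rintro rfl
        exact ⟨1, G.one_mem, 1, G.one_mem, by simp⟩
      · rintro ⟨g, hg, h, hh, rfl⟩
        rw [zero_mul, zero_add, hfx y h hh]
    by_cases hy : y = 0
    · subst hy
      rw [fO_zero, addO_none_right]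
      ext w
      simp only [Set.mem_singleton_iff, Set.mem_ofPred_eq]
      constructor
      · rintro rfl
        exact ⟨1, G.one_mem, 1, G.one_mem, by simp⟩
      · rintro ⟨g, hg, h, hh, rfl⟩
        rw [zero_mul, add_zero, hfx x g hg]
    obtain ⟨u, rfl⟩ : ∃ u : Kˣ, (u : K) = x := ⟨Units.mk0 x hx, rfl⟩
    obtain ⟨v, rfl⟩ : ∃ u : Kˣ, (u : K) = y := ⟨Units.mk0 y hy, rfl⟩
    rw [fO_unit, fO_unit]
    ext w
    rcases w with _ | w
    · rw [none_mem_addO]
      simp only [Set.mem_ofPred_eq]
      constructor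
      · intro h
        rw [← hneg, eq_comm, heq] at h
        obtain ⟨g, hg, rfl⟩ := h
        refine ⟨g, hg, 1, G.one_mem, ?_⟩
        rw [eq_comm, fO_eq_none]
        simp
      · rintro ⟨g, hg, h, hh, hw⟩
        rw [eq_comm, fO_eq_none] at hw
        have e1 : v * h = -u * g := by
          ext
          simp only [Units.val_mul, Units.val_neg]
          linear_combination hw
        have e2 := congrArg ψ e1
        rw [map_mul, map_mul, (hker h).2 hh, (hker g).2 hg, mul_one, mul_one, hneg] at e2
        exact e2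
    · rw [some_mem_addO, mem_NO ψ hψ]
      simp only [Set.mem_ofPred_eq]
      constructor
      · rintro ⟨x, y, z, hx, hy, hz, hsum⟩
        rw [eq_comm, heq] at hx hy
        obtain ⟨g, hg, rfl⟩ := hx
        obtain ⟨h, hh, rfl⟩ := hy
        refine ⟨g, hg, h, hh, ?_⟩
        have e1 : ((u : K) * (g : K) + (v : K) * (h : K)) = ((-z : Kˣ) : K) := by
          simp only [Units.val_mul, Units.val_neg] at hsum ⊢
          linear_combination hsum
        rw [e1, fO_unit, hneg, hz, ← mul_assoc, hε, one_mul]
      · rintro ⟨g, hg, h, hh, hw⟩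
        have hne : ((u : K) * (g : K) + (v : K) * (h : K)) ≠ 0 := by
          intro h0
          rw [h0, fO_zero] at hw
          simp at hw
        set t : Kˣ := Units.mk0 _ hne with ht
        have htv : ((u : K) * (g : K) + (v : K) * (h : K)) = (t : K) := rfl
        rw [htv, fO_unit, Option.some.injEq] at hw
        refine ⟨u * g, v * h, -t, ?_, ?_, ?_, ?_⟩
        · rw [map_mul, (hker g).2 hg, mul_one]
        · rw [map_mul, (hker h).2 hh, mul_one]
        · rw [hneg, hw]
        · simp only [Units.val_mul, Units.val_neg, ← htv]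
          ring

/-- If every element is a difference of elements of `G`, all classes `(1, ε, a)` occur. -/
theorem big_of_diff [Fintype A] (G : Subgroup Kˣ) (ψ : Kˣ →* A) (hψ : Function.Surjective ψ)
    (hker : ∀ x, ψ x = 1 ↔ x ∈ G)
    (hdiff : ∀ x : K, ∃ g ∈ G, ∃ h ∈ G, x = (g : K) - (h : K)) (a : A) :
    cls 1 (ψ (-1)) a ∈ NO ψ := by
  rw [mem_NO ψ hψ]
  obtain ⟨z, rfl⟩ := hψ a
  obtain ⟨g, hg, h, hh, e⟩ := hdiff (-(z : K))
  refine ⟨g, -h, z, (hker g).2 hg, ?_, rfl, ?_⟩
  · have : -h = -1 * h := by simp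
    rw [this, map_mul, (hker h).2 hh, mul_one]
  · rw [Units.val_neg]
    linear_combination -e

end fromField

end Pool.Agent.Helper96_HF
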