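import Mathlib
import Pool.Agent.Helper96_HF.Struct

set_option autoImplicit false

/-!
Isomorphism types of finite abelian groups of a given order, automorphism counts, and facts on
subgroups of finite index in the units of a field.
-/

namespace Pool.Agent.Helper96_HF

open Finset

/-- A finite group has a generating set of logarithmic size. -/
theorem exists_gen {A : Type*} [Group A] [Finite A] :
    ∃ S : Finset A, 2 ^ S.card ≤ Nat.card A ∧ Subgroup.closure (S : Set A) = ⊤ := by
  classical
  have key : ∀ H : Subgroup A, ∃ S : Finset A, 2 ^ S.card * Nat.card H ≤ Nat.card A ∧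
      H ⊔ Subgroup.closure (S : Set A) = ⊤ := by
    intro H
    induction H using WellFoundedGT.induction with
    | ind H ih =>
      by_cases hH : H = ⊤
      · refine ⟨∅, ?_, by simp [hH]⟩
        simpa using Subgroup.card_le_card_group H
      · obtain ⟨g, hg⟩ : ∃ g, g ∉ H := by
          by_contra hcon
          push Not at hcon
          exact hH (eq_top_iff.2 fun x _ => hcon x)
        set H' := H ⊔ Subgroup.closure ({g} : Set A) with hH'
        have hlt : H < H' := by
          refine lt_of_le_of_ne le_sup_left ?_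
          intro heq
          apply hg
          rw [heq]
          exact (le_sup_right : Subgroup.closure ({g} : Set A) ≤ H')
            (Subgroup.subset_closure (Set.mem_singleton g))
        obtain ⟨S, hS, hS'⟩ := ih H' hlt
        have hcard : 2 * Nat.card H ≤ Nat.card H' := by
          obtain ⟨k, hk⟩ := Subgroup.card_dvd_of_le hlt.le
          have hpos : 0 < Nat.card H' := Nat.card_pos
          have hk0 : k ≠ 0 := by
            rintro rfl
            omega
          have hk1 : k ≠ 1 := by
            rintro rfl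
            rw [mul_one] at hk
            exact hlt.ne (Subgroup.eq_of_le_of_card_ge hlt.le hk.le)
          have : 2 ≤ k := by omega
          rw [hk, mul_comm]
          exact Nat.mul_le_mul_left _ this
        refine ⟨insert g S, ?_, ?_⟩
        · calc 2 ^ (insert g S).card * Nat.card H ≤ 2 ^ (S.card + 1) * Nat.card H :=
                Nat.mul_le_mul_right _ (Nat.pow_le_pow_right (by norm_num) (card_insert_le _ _))
            _ = 2 ^ S.card * (2 * Nat.card H) := by ring
            _ ≤ 2 ^ S.card * Nat.card H' := Nat.mul_le_mul_left _ hcard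
            _ ≤ _ := hS
        · rw [coe_insert, Set.insert_eq, Subgroup.closure_union, ← sup_assoc]
          exact hS'
  obtain ⟨S, hS, hS'⟩ := key ⊥
  refine ⟨S, by simpa using hS, by simpa using hS'⟩

theorem aut_card (A : Type*) [CommGroup A] [Finite A] :
    Nat.card (A ≃* A) ≤ (Nat.card A) ^ (Nat.log 2 (Nat.card A)) := by
  classical
  obtain ⟨S, hS, hS'⟩ := exists_gen (A := A)
  have hinj : Function.Injective (fun (φ : A ≃* A) (s : S) => φ (s : A)) := by
    intro φ χ h
    have : (φ : A →* A) = (χ : A →* A) := by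
      refine MonoidHom.eq_of_eqOn_dense hS' ?_
      intro x hx
      exact congrFun h ⟨x, hx⟩
    ext x
    exact DFunLike.congr_fun this x
  have h1 := Nat.card_le_card_of_injective _ hinj
  have h2 : Nat.card (S → A) = Nat.card A ^ S.card := by
    rw [Nat.card_fun]
    simp
  rw [h2] at h1
  refine h1.trans (Nat.pow_le_pow_right Nat.card_pos ?_)
  exact (Nat.le_log_iff_pow_le (by norm_num) Nat.card_pos.ne').2 hS

/-- A plain finite type with `r` elements. -/
def Box (r : ℕ) : Type := Fin r

instance (r : ℕ) : Fintype (Box r) := inferInstanceAs (Fintype (Fin r))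

theorem card_Box (r : ℕ) : Fintype.card (Box r) = r := Fintype.card_fin r

/-- Isomorphism of group structures. -/
def grpSetoid (r : ℕ) : Setoid (CommGroup (Box r)) where
  r g h := Nonempty (@MulEquiv (Box r) (Box r) g.toMul h.toMul)
  iseqv := by
    refine ⟨fun g => ⟨@MulEquiv.refl (Box r) g.toMul⟩, ?_, ?_⟩
    · rintro g h ⟨e⟩
      exact ⟨@MulEquiv.symm _ _ g.toMul h.toMul e⟩
    · rintro g h k ⟨e⟩ ⟨f⟩
      exact ⟨@MulEquiv.trans _ _ _ g.toMul h.toMul k.toMul e f⟩

/-- Isomorphism types of abelian groups of order `r`. -/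
def GI (r : ℕ) : Type := Quotient (grpSetoid r)

instance (r : ℕ) : Finite (CommGroup (Box r)) := by
  refine Finite.of_injective (β := Box r → Box r → Box r) (fun g => g.mul) ?_
  intro g h hgh
  apply CommGroup.ext
  exact hgh

noncomputable instance (r : ℕ) : Fintype (GI r) := @Fintype.ofFinite _ (Quotient.finite _)

/-- The group attached to an isomorphism type. -/
def GT {r : ℕ} (_ : GI r) : Type := Box r

noncomputable instance {r : ℕ} (i : GI r) : CommGroup (GT i) := (Quotient.out i : CommGroup (Box r))

instance {r : ℕ} (i : GI r) : Fintype (GT i) := inferInstanceAs (Fintype (Box r))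

theorem card_GT {r : ℕ} (i : GI r) : Fintype.card (GT i) = r := card_Box r

theorem GT_exists {r : ℕ} (A : Type) [CommGroup A] [Finite A] (h : Nat.card A = r) :
    ∃ i : GI r, Nonempty (A ≃* GT i) := by
  classical
  have : Fintype A := Fintype.ofFinite A
  have hc : Fintype.card A = Fintype.card (Box r) := by rw [card_Box, ← h, Nat.card_eq_fintype_card]
  let e : A ≃ Box r := Fintype.equivOfCardEq hc
  let g : CommGroup (Box r) := e.symm.commGroup
  let f : @MulEquiv A (Box r) _ g.toMul := 
    @MulEquiv.mk A (Box r) _ g.toMul e (fun x y => by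
      show e (x * y) = e (e.symm (e x) * e.symm (e y))
      simp)
  refine ⟨Quotient.mk (grpSetoid r) g, ?_⟩
  have h1 : (grpSetoid r).r (Quotient.out (Quotient.mk (grpSetoid r) g)) g :=
    Quotient.exact (Quotient.out_eq (Quotient.mk (grpSetoid r) g))
  obtain ⟨e2⟩ := h1
  let go : CommGroup (Box r) := Quotient.out (Quotient.mk (grpSetoid r) g)
  let e3 : @MulEquiv (Box r) (Box r) g.toMul go.toMul := @MulEquiv.symm _ _ go.toMul g.toMul e2
  exact ⟨@MulEquiv.trans A (Box r) (Box r) _ g.toMul go.toMul f e3⟩

theorem GT_inj {r : ℕ} (i j : GI r) (h : Nonempty (GT i ≃* GT j)) : i = j := by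
  rw [← Quotient.out_eq i, ← Quotient.out_eq j]
  exact Quotient.sound h

/-- The standard bijection from the group with zero to `Fin (r+1)`. -/
def eO {r : ℕ} (i : GI r) : Option (GT i) ≃ Fin (r + 1) := (finSuccEquiv r).symm

theorem eO_none {r : ℕ} (i : GI r) : eO i none = 0 := rfl

section field
variable {K : Type*} [Field K]

theorem index_eq {r : ℕ} {G : Subgroup Kˣ} {f : K → Fin (r + 1)}
    {m : Fin (r + 1) → Fin (r + 1) → Fin (r + 1)} {s : Fin (r + 1) → Fin (r + 1) → Set (Fin (r + 1))}
    (h : QData K G 0 f m s) : Nat.card (Kˣ ⧸ G) = r := by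
  obtain ⟨h1, h2, h3, -, -⟩ := h
  have hne : ∀ x : Kˣ, f x ≠ 0 := by
    intro x hx
    rw [← h2, eq_comm, h3] at hx
    obtain ⟨g, _, hg⟩ := hx
    simp at hg
  let F : Kˣ → {z : Fin (r + 1) // z ≠ 0} := fun x => ⟨f x, hne x⟩
  have hF : ∀ x y : Kˣ, F x = F y ↔ x⁻¹ * y ∈ G := by
    intro x y
    rw [Subtype.ext_iff]
    show f x = f y ↔ _
    rw [h3]
    constructor
    · rintro ⟨g, hg, e⟩
      have : y = x * g := by ext; simpa using e
      rw [this]; simpa using hg
    · intro h
      exact ⟨_, h, by simp⟩
  have hbij : Function.Bijective (Quotient.lift (s := QuotientGroup.leftRel G) F (by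
      intro a b hab
      rw [hF]
      exact QuotientGroup.leftRel_apply.1 hab)) := by
    constructor
    · intro a b
      induction a using Quotient.inductionOn with
      | h a =>
      induction b using Quotient.inductionOn with
      | h b =>
      intro hab
      apply Quotient.sound
      exact QuotientGroup.leftRel_apply.2 ((hF a b).1 hab)
    · rintro ⟨z, hz⟩
      obtain ⟨x, rfl⟩ := h1 z
      have hx : x ≠ 0 := by
        rintro rfl
        exact hz h2
      exact ⟨Quotient.mk (QuotientGroup.leftRel G) (Units.mk0 x hx), rfl⟩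
  have := Nat.card_congr (Equiv.ofBijective _ hbij)
  refine this.trans ?_
  rw [Nat.card_eq_fintype_card, Fintype.card_subtype_compl, Fintype.card_fin]
  simp

theorem mem_iff_pow [Finite K] (G : Subgroup Kˣ) (x : Kˣ) : x ∈ G ↔ x ^ Nat.card G = 1 := by
  classical
  have : Fintype K := Fintype.ofFinite K
  constructor
  · intro hx
    have h1 : (⟨x, hx⟩ : G) ^ Nat.card G = 1 := pow_card_eq_one'
    have h2 := congrArg (fun y : G => (y : Kˣ)) h1
    simpa only [Subgroup.coe_pow, Subgroup.coe_one] using h2
  · intro hx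
    have h1 := IsCyclic.card_pow_eq_one_le (α := Kˣ) (n := Nat.card G) Nat.card_pos
    have hsub : (univ.filter (fun y : Kˣ => y ∈ G)) ⊆ univ.filter (fun y : Kˣ => y ^ Nat.card G = 1) := by
      intro y hy
      rw [mem_filter] at hy ⊢
      refine ⟨mem_univ _, ?_⟩
      have h1 : (⟨y, hy.2⟩ : G) ^ Nat.card G = 1 := pow_card_eq_one'
      have h2 := congrArg (fun y : G => (y : Kˣ)) h1
      simpa only [Subgroup.coe_pow, Subgroup.coe_one] using h2
    have hc : (univ.filter (fun y : Kˣ => y ∈ G)).card = Nat.card G := by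
      rw [Nat.card_eq_fintype_card, Fintype.card_subtype]
    have heq := eq_of_subset_of_card_le hsub (by rw [hc]; exact h1)
    have : x ∈ univ.filter (fun y : Kˣ => y ^ Nat.card G = 1) := by
      rw [mem_filter]; exact ⟨mem_univ _, hx⟩
    rw [← heq, mem_filter] at this
    exact this.2

theorem card_units_eq [Finite K] {r : ℕ} {G : Subgroup Kˣ} {f : K → Fin (r + 1)}
    {m : Fin (r + 1) → Fin (r + 1) → Fin (r + 1)} {s : Fin (r + 1) → Fin (r + 1) → Set (Fin (r + 1))}
    (h : QData K G 0 f m s) : Nat.card K = r * Nat.card G + 1 := by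
  have h1 := index_eq h
  have h2 := Subgroup.card_eq_card_quotient_mul_card_subgroup G
  rw [h1] at h2
  rw [← h2]
  classical
  have : Fintype K := Fintype.ofFinite K
  rw [Nat.card_eq_fintype_card, Nat.card_eq_fintype_card, Fintype.card_units]
  have : 0 < Fintype.card K := Fintype.card_pos
  omega

/-- In a large finite field every element is a difference of elements of `G`. -/
theorem finite_diff [Finite K] {r : ℕ} {G : Subgroup Kˣ} {f : K → Fin (r + 1)}
    {m : Fin (r + 1) → Fin (r + 1) → Fin (r + 1)} {s : Fin (r + 1) → Fin (r + 1) → Set (Fin (r + 1))}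
    (h : QData K G 0 f m s) (hbig : 16 * r ^ 4 < Nat.card K) (x : K) :
    ∃ g ∈ G, ∃ k ∈ G, x = (g : K) - (k : K) := by
  classical
  by_cases hx : x = 0
  · exact ⟨1, G.one_mem, 1, G.one_mem, by simp [hx]⟩
  by_contra hcon
  have : Fintype K := Fintype.ofFinite K
  have h1 := card_pow_four_le G x hx (fun g hg k hk hgk => hcon ⟨g, hg, k, hk, hgk.symm⟩)
  have h2 := card_units_eq h
  rw [Nat.card_eq_fintype_card, Nat.card_eq_fintype_card] at h2
  rw [Nat.card_eq_fintype_card] at hbig
  set q := Fintype.card K
  set n := Fintype.card G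
  have hn : 0 < n := Fintype.card_pos
  have hq2 : 2 ≤ q := Fintype.one_lt_card
  have hrn : 1 ≤ r * n := by omega
  have h3 : q ≤ 2 * (r * n) := by omega
  have h4 : q ^ 4 ≤ 16 * r ^ 4 * q ^ 3 := by
    calc q ^ 4 ≤ (2 * (r * n)) ^ 4 := Nat.pow_le_pow_left h3 4
      _ = 16 * r ^ 4 * n ^ 4 := by ring
      _ ≤ 16 * r ^ 4 * q ^ 3 := Nat.mul_le_mul_left _ h1
  have h5 : q ≤ 16 * r ^ 4 := by
    have hq3 : 0 < q ^ 3 := by positivity
    have : q * q ^ 3 ≤ 16 * r ^ 4 * q ^ 3 := by
      calc q * q ^ 3 = q ^ 4 := by ring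
        _ ≤ _ := h4
    exact Nat.le_of_mul_le_mul_right this hq3
  omega

end field

end Pool.Agent.Helper96_HF
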