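import Mathlib
import Pool.Agent.Helper96_HF.Groups

set_option autoImplicit false

/-!
Counting isomorphism classes of finite hyperfields and of quotient hyperfields.
-/

namespace Pool.Agent.Helper96_HF

open Finset

/-- Pairs of a multiplication and a hyperaddition on `Fin n`. -/
abbrev PT (n : ℕ) : Type := (Fin n → Fin n → Fin n) × (Fin n → Fin n → Set (Fin n))

/-- Quotient hyperfields of order `r+1`. -/
def IsQ (r : ℕ) (p : PT (r + 1)) : Prop :=
  ∃ (K : Type) (_ : Field K), ∃ G : Subgroup Kˣ, ∃ f : K → Fin (r + 1), QData K G 0 f p.1 p.2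

/-- Hyperfields of order `r+1`. -/
def IsH (r : ℕ) (p : PT (r + 1)) : Prop := HypAx 0 p.1 p.2

/-- Isomorphism. -/
def Iso {n : ℕ} (p q : PT n) : Prop :=
  ∃ e : Fin n ≃ Fin n, ∀ a b, e (p.1 a b) = q.1 (e a) (e b) ∧ e '' p.2 a b = q.2 (e a) (e b)

theorem Iso.refl {n : ℕ} (p : PT n) : Iso p p := ⟨Equiv.refl _, fun a b => by simp⟩

theorem Iso.symm {n : ℕ} {p q : PT n} (h : Iso p q) : Iso q p := by
  obtain ⟨e, he⟩ := h
  refine ⟨e.symm, fun a b => ?_⟩
  have := he (e.symm a) (e.symm b)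
  simp only [Equiv.apply_symm_apply] at this
  rw [← this.1, ← this.2]
  refine ⟨by simp, ?_⟩
  rw [Set.image_image]; simp

theorem Iso.trans {n : ℕ} {p q s : PT n} (h : Iso p q) (h' : Iso q s) : Iso p s := by
  obtain ⟨e, he⟩ := h
  obtain ⟨f, hf⟩ := h'
  refine ⟨e.trans f, fun a b => ?_⟩
  simp only [Equiv.trans_apply]
  rw [(he a b).1, (hf _ _).1]
  refine ⟨rfl, ?_⟩
  rw [← (hf _ _).2, ← (he a b).2]
  exact (Set.image_image f e _).symm

/-- The isomorphism classes inside a family. -/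
def Classes {n : ℕ} (P : PT n → Prop) : Set (Set (PT n)) :=
  {C | ∃ p, P p ∧ C = {q | P q ∧ Iso p q}}

theorem classes_le {n : ℕ} {S : Type*} [Fintype S] (P : PT n → Prop) (inv : PT n → S → Prop)
    (h1 : ∀ p, P p → ∃ s, inv p s)
    (h2 : ∀ p q s, P p → P q → inv p s → inv q s → Iso p q) :
    (Classes P).ncard ≤ Fintype.card S := by
  classical
  have key : ∀ C : Set (PT n), ∃ s : Option S, C ∈ Classes P →
      ∃ p, P p ∧ C = {q | P q ∧ Iso p q} ∧ ∃ t, s = some t ∧ inv p t := by
    intro C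
    by_cases hC : C ∈ Classes P
    · obtain ⟨p, hp, hpC⟩ := hC
      obtain ⟨s, hs⟩ := h1 p hp
      exact ⟨some s, fun _ => ⟨p, hp, hpC, s, rfl, hs⟩⟩
    · exact ⟨none, fun h => absurd h hC⟩
  choose F hF using key
  have hmaps : ∀ C ∈ Classes P, F C ∈ ((univ : Finset S).image some : Finset (Option S)) := by
    intro C hC
    obtain ⟨p, _, _, t, ht, _⟩ := hF C hC
    rw [ht, mem_image]
    exact ⟨t, mem_univ _, rfl⟩
  have hinj : Set.InjOn F (Classes P) := by
    intro C hC D hD hCD
    obtain ⟨p, hp, hpC, t, ht, hpt⟩ := hF C hC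
    obtain ⟨q, hq, hqD, t', ht', hqt⟩ := hF D hD
    have htt : t = t' := by
      rw [ht, ht'] at hCD
      exact Option.some.inj hCD
    subst htt
    have hiso := h2 p q t hp hq hpt hqt
    rw [hpC, hqD]
    ext x
    constructor
    · rintro ⟨hx, hx'⟩
      exact ⟨hx, hiso.symm.trans hx'⟩
    · rintro ⟨hx, hx'⟩
      exact ⟨hx, hiso.trans hx'⟩
  calc (Classes P).ncard ≤ (((univ : Finset S).image some : Finset (Option S)) : Set (Option S)).ncard :=
        Set.ncard_le_ncard_of_injOn F (fun C hC => mem_coe.2 (hmaps C hC)) hinj (Set.toFinite _)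
    _ = ((univ : Finset S).image some).card := Set.ncard_coe_finset _
    _ ≤ Fintype.card S := card_image_le

/-- The hyperfield on `Fin (r+1)` attached to a group type, `ε` and a set of classes. -/
noncomputable def struct {r : ℕ} (i : GI r) (ε : GT i) (N : Finset (Om (GT i))) : PT (r + 1) :=
  (fun a b => eO i (mulO ((eO i).symm a) ((eO i).symm b)),
    fun a b => eO i '' addO ε N ((eO i).symm a) ((eO i).symm b))

theorem struct_isH {r : ℕ} (i : GI r) (ε : GT i) (N : Finset (Om (GT i))) (hε : ε * ε = 1)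
    (hN : Gen ε N) : IsH r (struct i ε N) :=
  (hyp_of_gen hε hN).transport (eO i)

/-- All triples (group type, element, set of classes). -/
abbrev Zall (r : ℕ) : Type := Σ i : GI r, (GT i × Finset (Om (GT i)))

/-- Generic parameters. -/
def ZGen {r : ℕ} (z : Zall r) : Prop := z.2.1 * z.2.1 = 1 ∧ Gen z.2.1 z.2.2

/-- Parameters with `1 + (-1)` everything. -/
def ZBig {r : ℕ} (z : Zall r) : Prop := z.2.1 * z.2.1 = 1 ∧ ∀ a, cls 1 z.2.1 a ∈ z.2.2

theorem QData.transport {K : Type*} [Field K] {G : Subgroup Kˣ} {X Y : Type*} {z : X} {f : K → X}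
    {m : X → X → X} {s : X → X → Set X} (h : QData K G z f m s) (e : X ≃ Y) :
    QData K G (e z) (fun x => e (f x)) (fun a b => e (m (e.symm a) (e.symm b)))
      (fun a b => e '' s (e.symm a) (e.symm b)) := by
  obtain ⟨h1, h2, h3, h4, h5⟩ := h
  refine ⟨e.surjective.comp h1, by show e (f 0) = e z; rw [h2], ?_, ?_, ?_⟩
  · intro x y
    rw [e.injective.eq_iff, h3]
  · intro x y; simp [h4]
  · intro x y
    simp only [Equiv.symm_apply_apply, h5]
    ext w
    simp only [Set.mem_image, Set.mem_ofPred_eq]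
    constructor
    · rintro ⟨u, ⟨g, hg, k, hk, rfl⟩, rfl⟩
      exact ⟨g, hg, k, hk, rfl⟩
    · rintro ⟨g, hg, k, hk, rfl⟩
      exact ⟨_, ⟨g, hg, k, hk, rfl⟩, rfl⟩

theorem classesQ_le (r : ℕ) :
    (Classes (IsQ r)).ncard ≤ (16 * r ^ 4 + 1) + cnt (fun z : Zall r => ZBig z) := by
  classical
  have := classes_le (S := Fin (16 * r ^ 4 + 1) ⊕ {z : Zall r // ZBig z}) (IsQ r)
    (fun p s => match s with
      | Sum.inl n => ∃ (K : Type) (_ : Field K), Finite K ∧ ∃ G : Subgroup Kˣ, ∃ f : K → Fin (r + 1),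
          QData K G 0 f p.1 p.2 ∧ Nat.card K = (n : ℕ)
      | Sum.inr z => Iso p (struct z.1.1 z.1.2.1 z.1.2.2)) ?_ ?_
  · refine this.trans ?_
    rw [Fintype.card_sum, Fintype.card_fin, cnt_eq_card]
  · rintro p ⟨K, hK, G, f, hQ⟩
    by_cases hdiff : ∀ x : K, ∃ g ∈ G, ∃ k ∈ G, x = (g : K) - (k : K)
    · -- the generic case
      have hcard := index_eq hQ
      have hr : r ≠ 0 := by
        rintro rfl
        obtain ⟨-, h2, h3, -, -⟩ := hQ
        have : f 0 = f 1 := Subsingleton.elim (α := Fin 1) _ _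
        rw [h3] at this
        obtain ⟨g, _, hg⟩ := this
        simp at hg
      have hfin : Finite (Kˣ ⧸ G) := Nat.finite_of_card_ne_zero (by rw [hcard]; exact hr)
      obtain ⟨i, ⟨e⟩⟩ := GT_exists (Kˣ ⧸ G) hcard
      let ψ : Kˣ →* GT i := (e : (Kˣ ⧸ G) →* GT i).comp (QuotientGroup.mk' G)
      have hψ : Function.Surjective ψ := e.surjective.comp (QuotientGroup.mk'_surjective G)
      have hker : ∀ x, ψ x = 1 ↔ x ∈ G := by
        intro x
        show e (QuotientGroup.mk' G x) = 1 ↔ _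
        rw [map_eq_one_iff e e.injective]
        exact QuotientGroup.eq_one_iff x
      have hQ' := (QData_O G ψ hψ hker).transport (eO i)
      have hiso := hQ.iso hQ' (RingEquiv.refl K) (fun x => by
        have : Units.map ((RingEquiv.refl K : K ≃+* K) : K →* K) x = x := by ext; rfl
        rw [this])
      obtain ⟨e', he', -⟩ := hiso
      refine ⟨Sum.inr ⟨⟨i, ψ (-1), NO ψ⟩, ?_, ?_⟩, ?_⟩
      · show ψ (-1) * ψ (-1) = 1
        rw [← map_mul]; simp
      · exact big_of_diff G ψ hψ hker hdiff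
      · exact ⟨e', he'⟩
    · have hKfin : Finite K := by
        by_contra hinf
        rw [not_finite_iff_infinite] at hinf
        exact hdiff (infinite_diff G f hQ.1 hQ.2.2.1)
      have hsmall : Nat.card K < 16 * r ^ 4 + 1 := by
        by_contra hcon
        push Not at hcon
        exact hdiff (finite_diff hQ (by omega))
      exact ⟨Sum.inl ⟨Nat.card K, hsmall⟩, K, hK, hKfin, G, f, hQ, rfl⟩
  · rintro p q (n | z) hp hq hps hqs
    · obtain ⟨K, hK, hKf, G, f, hQ, hn⟩ := hps
      obtain ⟨K', hK', hKf', G', f', hQ', hn'⟩ := hqs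
      have i1 : Fintype K := Fintype.ofFinite K
      have i2 : Fintype K' := Fintype.ofFinite K'
      have hcc : Fintype.card K = Fintype.card K' := by
        rw [← Nat.card_eq_fintype_card, ← Nat.card_eq_fintype_card, hn, hn']
      have φ : K ≃+* K' := FiniteField.ringEquivOfCardEq hcc
      have c1 := card_units_eq hQ
      have c2 := card_units_eq hQ'
      have hGG : Nat.card G = Nat.card G' := by
        rw [hn] at c1
        rw [hn'] at c2
        have hr : 0 < r := by
          rcases Nat.eq_zero_or_pos r with h0 | h0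
          · exfalso
            have h1 : Nat.card K = 1 := by rw [hn, c1, h0, zero_mul]
            rw [Nat.card_eq_fintype_card] at h1
            have := Fintype.one_lt_card (α := K)
            omega
          · exact h0
        have : r * Nat.card G = r * Nat.card G' := by omega
        exact Nat.eq_of_mul_eq_mul_left hr this
      obtain ⟨e', he', -⟩ := hQ.iso hQ' φ (fun x => by
        rw [mem_iff_pow G, mem_iff_pow G', hGG, ← map_pow]
        constructor
        · intro h; rw [h, map_one]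
        · intro h
          have := congrArg (fun u : K'ˣ => (u : K')) h
          simp only [Units.coe_map, Units.val_one] at this
          ext
          apply φ.injective
          simpa using this)
      exact ⟨e', he'⟩
    · exact Iso.trans hps (Iso.symm hqs)

/-- The induced map on classes. -/
def Omap {A B : Type*} [CommGroup A] [CommGroup B] (α : A →* B) : Om A → Om B :=
  Quotient.map' (fun v i => α (v i)) (by
    rintro v w ⟨t, σ, h⟩
    exact ⟨α t, σ, fun i => by
      show α (w (σ i)) = α t * α (v i)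
      rw [h, map_mul]⟩)

theorem Omap_cls {A B : Type*} [CommGroup A] [CommGroup B] (α : A →* B) (a b c : A) :
    Omap α (cls a b c) = cls (α a) (α b) (α c) := by
  unfold cls vcls Omap
  rw [Quotient.map'_mk'' ]
  congr 1
  ext i
  fin_cases i <;> rfl

theorem exists_cls {A : Type*} [CommGroup A] (ω : Om A) : ∃ a b c : A, ω = cls a b c := by
  obtain ⟨v, rfl⟩ : ∃ v, vcls v = ω := Quotient.exists_rep ω
  refine ⟨v 0, v 1, v 2, ?_⟩
  unfold cls
  congr 1
  ext i
  fin_cases i <;> rfl

theorem iso_struct {r : ℕ} (i j : GI r) (ε : GT i) (N : Finset (Om (GT i))) (ε' : GT j)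
    (N' : Finset (Om (GT j))) (hε : ε * ε = 1)
    (h : Iso (struct i ε N) (struct j ε' N')) :
    ∃ α : GT i ≃* GT j, ε' = α ε ∧ N' = N.image (Omap (α : GT i →* GT j)) := by
  classical
  obtain ⟨e, he⟩ := h
  let E : Option (GT i) ≃ Option (GT j) := (eO i).trans (e.trans (eO j).symm)
  have hmul : ∀ a b, E (mulO a b) = mulO (E a) (E b) := by
    intro a b
    have := (he (eO i a) (eO i b)).1
    simp only [struct, Equiv.symm_apply_apply] at this
    show (eO j).symm (e (eO i (mulO a b))) = _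
    rw [this, Equiv.symm_apply_apply]
    rfl
  have hadd : ∀ a b, E '' addO ε N a b = addO ε' N' (E a) (E b) := by
    intro a b
    have := (he (eO i a) (eO i b)).2
    simp only [struct, Equiv.symm_apply_apply] at this
    have h2 := congrArg (fun T => (eO j).symm '' T) this
    simp only [Set.image_image, Equiv.symm_apply_apply, Set.image_id'] at h2
    exact h2
  have hE0 : E none = none := by
    have := hmul none (E.symm none)
    simpa using this
  have hEs : ∀ a : GT i, ∃ b : GT j, E (some a) = some b := by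
    intro a
    rcases hE : E (some a) with _ | b
    · rw [← hE0] at hE
      have := E.injective hE
      simp at this
    · exact ⟨b, rfl⟩
  choose α hα using hEs
  have hαinj : Function.Injective α := by
    intro a b hab
    have : E (some a) = E (some b) := by rw [hα, hα, hab]
    simpa using E.injective this
  have hαsurj : Function.Surjective α := by
    intro b
    rcases hb : E.symm (some b) with _ | a
    · have := congrArg E hb
      rw [Equiv.apply_symm_apply, hE0] at this
      simp at this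
    · have := congrArg E hb
      rw [Equiv.apply_symm_apply, hα] at this
      exact ⟨a, by simpa using this.symm⟩
  have hαmul : ∀ a b, α (a * b) = α a * α b := by
    intro a b
    have := hmul (some a) (some b)
    rw [mulO_some, hα, hα, hα, mulO_some] at this
    simpa using this
  let αe : GT i ≃* GT j := MulEquiv.mk' (Equiv.ofBijective α ⟨hαinj, hαsurj⟩) hαmul
  have hαe : ∀ a, αe a = α a := fun a => rfl
  have hεε : ∀ a : GT i, ε * (ε * a) = a := fun a => by rw [← mul_assoc, hε, one_mul]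
  have h1 : ε' = αe ε := by
    have h0 : none ∈ addO ε N (some 1) (some ε) := by simp
    have h2 : E none ∈ E '' addO ε N (some 1) (some ε) := Set.mem_image_of_mem _ h0
    rw [hadd, hE0, hα, hα, none_mem_addO] at h2
    have h3 : α 1 = 1 := map_one αe
    rw [h3, mul_one] at h2
    rw [hαe, h2]
  have hkey : ∀ a b c : GT i, cls a b c ∈ N ↔ cls (αe a) (αe b) (αe c) ∈ N' := by
    intro a b c
    have h2 : some (ε * c) ∈ addO ε N (some a) (some b) ↔
        E (some (ε * c)) ∈ addO ε' N' (E (some a)) (E (some b)) := by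
      rw [← hadd]
      exact (E.injective.mem_set_image).symm
    rw [some_mem_addO, hεε, hα, hα, hα, some_mem_addO, h1, ← hαe, ← hαe, ← hαe, ← map_mul, hεε] at h2
    exact h2
  refine ⟨αe, h1, ?_⟩
  ext ω
  rw [mem_image]
  constructor
  · intro hω
    obtain ⟨a, b, c, rfl⟩ := exists_cls ω
    obtain ⟨a, rfl⟩ := αe.surjective a
    obtain ⟨b, rfl⟩ := αe.surjective b
    obtain ⟨c, rfl⟩ := αe.surjective c
    exact ⟨cls a b c, (hkey a b c).2 hω, Omap_cls _ _ _ _⟩
  · rintro ⟨ω', hω', rfl⟩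
    obtain ⟨a, b, c, rfl⟩ := exists_cls ω'
    rw [Omap_cls]
    exact (hkey a b c).1 hω'

theorem classesH_ge (r : ℕ) :
    cnt (fun z : Zall r => ZGen z) ≤ r ^ (Nat.log 2 r) * (Classes (IsH r)).ncard := by
  classical
  set S : Finset (Zall r) := univ.filter (fun z => ZGen z) with hS
  let F : Zall r → Set (PT (r + 1)) := fun z =>
    {q | IsH r q ∧ Iso (struct z.1 z.2.1 z.2.2) q}
  have hfib : ∀ C ∈ S.image F, (S.filter (fun z => F z = C)).card ≤ r ^ (Nat.log 2 r) := by
    intro C hC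
    rw [mem_image] at hC
    obtain ⟨⟨i, ε, N⟩, hz, rfl⟩ := hC
    rw [hS, mem_filter] at hz
    obtain ⟨-, hε, hN⟩ := hz
    have hfinAut : Finite (GT i ≃* GT i) :=
      Finite.of_injective (fun e : GT i ≃* GT i => (e : GT i → GT i)) DFunLike.coe_injective
    have : Fintype (GT i ≃* GT i) := Fintype.ofFinite _
    have hsub : S.filter (fun z => F z = F ⟨i, ε, N⟩) ⊆
        (univ : Finset (GT i ≃* GT i)).image
          (fun α : GT i ≃* GT i => (⟨i, α ε, N.image (Omap (α : GT i →* GT i))⟩ : Zall r)) := by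
      rintro ⟨j, ε', N'⟩ hz'
      rw [mem_filter, hS, mem_filter] at hz'
      obtain ⟨⟨-, hε', hN'⟩, hF⟩ := hz'
      have hself : struct j ε' N' ∈ F ⟨j, ε', N'⟩ := ⟨struct_isH j ε' N' hε' hN', Iso.refl _⟩
      rw [hF] at hself
      obtain ⟨-, hiso⟩ := hself
      obtain ⟨α, h1, h2⟩ := iso_struct i j ε N ε' N' hε hiso
      have hij : i = j := GT_inj i j ⟨α⟩
      subst hij
      rw [mem_image]
      exact ⟨α, mem_univ _, by rw [h1, h2]⟩
    refine (card_le_card hsub).trans (card_image_le.trans ?_)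
    rw [card_univ, ← Nat.card_eq_fintype_card]
    refine (aut_card (GT i)).trans ?_
    rw [Nat.card_eq_fintype_card, card_GT]
  have h1 := card_le_mul_card_image S _ hfib
  have h2 : (S.image F).card ≤ (Classes (IsH r)).ncard := by
    rw [← Set.ncard_coe_finset]
    refine Set.ncard_le_ncard ?_ (Set.toFinite _)
    intro C hC
    rw [mem_coe, mem_image] at hC
    obtain ⟨⟨i, ε, N⟩, hz, rfl⟩ := hC
    rw [hS, mem_filter] at hz
    obtain ⟨-, hε, hN⟩ := hz
    exact ⟨struct i ε N, struct_isH i ε N hε hN, rfl⟩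
  have h3 : cnt (fun z : Zall r => ZGen z) = S.card := by
    unfold cnt
    rw [hS]
  rw [h3]
  exact h1.trans (Nat.mul_le_mul_left _ h2)

theorem cnt_Zall (r : ℕ) (P : ∀ i : GI r, GT i → Finset (Om (GT i)) → Prop) :
    cnt (fun z : Zall r => P z.1 z.2.1 z.2.2) = ∑ i : GI r, ∑ ε : GT i, cnt (P i ε) := by
  classical
  have h : ∀ {X : Type} [Fintype X] (Q : X → Prop), cnt Q = ∑ x, (if Q x then 1 else 0) := by
    intro X _ Q
    unfold cnt
    rw [card_filter]
  rw [h]
  have e1 : (∑ z : Zall r, (if P z.1 z.2.1 z.2.2 then 1 else 0) : ℕ) =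
      ∑ i : GI r, ∑ y : GT i × Finset (Om (GT i)), (if P i y.1 y.2 then 1 else 0) := by
    exact Fintype.sum_sigma _
  rw [e1]
  refine sum_congr rfl fun i _ => ?_
  rw [Fintype.sum_prod_type]
  refine sum_congr rfl fun ε _ => ?_
  rw [h]

theorem big_le_gen (r k : ℕ) (hk : 36 * k ≤ r) (hk' : 2 * r ^ 4 * 3 ^ k ≤ 4 ^ k) :
    2 ^ (r / 9) * cnt (fun z : Zall r => ZBig z) ≤ 2 * cnt (fun z : Zall r => ZGen z) := by
  classical
  have e1 := cnt_Zall r (fun i ε N => ε * ε = 1 ∧ ∀ a, cls 1 ε a ∈ N)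
  have e2 := cnt_Zall r (fun i ε N => ε * ε = 1 ∧ Gen ε N)
  have f1 : cnt (fun z : Zall r => ZBig z) =
      cnt (fun z : Zall r => z.2.1 * z.2.1 = 1 ∧ ∀ a, cls 1 z.2.1 a ∈ z.2.2) := rfl
  have f2 : cnt (fun z : Zall r => ZGen z) =
      cnt (fun z : Zall r => z.2.1 * z.2.1 = 1 ∧ Gen z.2.1 z.2.2) := rfl
  rw [f1, f2, e1, e2, mul_sum, mul_sum]
  refine sum_le_sum fun i _ => ?_
  rw [mul_sum, mul_sum]
  refine sum_le_sum fun ε _ => ?_
  by_cases hε : ε * ε = 1
  · have g1 : cnt (fun N : Finset (Om (GT i)) => ε * ε = 1 ∧ ∀ a, cls 1 ε a ∈ N) =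
        cnt (fun N : Finset (Om (GT i)) => ∀ a, cls 1 ε a ∈ N) := cnt_congr fun N => by simp [hε]
    have g2 : cnt (fun N : Finset (Om (GT i)) => ε * ε = 1 ∧ Gen ε N) =
        cnt (fun N : Finset (Om (GT i)) => Gen ε N) := cnt_congr fun N => by simp [hε]
    show 2 ^ (r / 9) * cnt (fun N : Finset (Om (GT i)) => ε * ε = 1 ∧ ∀ a, cls 1 ε a ∈ N) ≤
      2 * cnt (fun N : Finset (Om (GT i)) => ε * ε = 1 ∧ Gen ε N)
    rw [g1, g2]
    have b1 := big_card ε
    have b2 := gen_card ε k (by rw [card_GT]; exact hk) (by rw [card_GT]; exact hk')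
    rw [card_GT] at b1
    exact b1.trans b2
  · have g1 : cnt (fun N : Finset (Om (GT i)) => ε * ε = 1 ∧ ∀ a, cls 1 ε a ∈ N) = 0 := by
      rw [cnt_congr (Q := fun _ => False) fun N => by simp [hε]]
      unfold cnt
      simp
    show 2 ^ (r / 9) * cnt (fun N : Finset (Om (GT i)) => ε * ε = 1 ∧ ∀ a, cls 1 ε a ∈ N) ≤ _
    rw [g1, mul_zero]
    exact Nat.zero_le _

theorem gen_ge (r k : ℕ) (hr : 0 < r) (hk : 36 * k ≤ r) (hk' : 2 * r ^ 4 * 3 ^ k ≤ 4 ^ k) :
    2 ^ (r / 9) ≤ 2 * cnt (fun z : Zall r => ZGen z) := by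
  classical
  have e2 := cnt_Zall r (fun i ε N => ε * ε = 1 ∧ Gen ε N)
  have f2 : cnt (fun z : Zall r => ZGen z) =
      cnt (fun z : Zall r => z.2.1 * z.2.1 = 1 ∧ Gen z.2.1 z.2.2) := rfl
  rw [f2, e2]
  have : NeZero r := ⟨hr.ne'⟩
  obtain ⟨i, -⟩ := GT_exists (r := r) (Multiplicative (ZMod r)) (by
    rw [Nat.card_congr Multiplicative.toAdd, Nat.card_zmod])
  have h1 : cnt (fun N : Finset (Om (GT i)) => (1 : GT i) * 1 = 1 ∧ Gen (1 : GT i) N) ≤
      ∑ ε : GT i, cnt (fun N : Finset (Om (GT i)) => ε * ε = 1 ∧ Gen ε N) :=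
    single_le_sum (f := fun ε : GT i => cnt (fun N : Finset (Om (GT i)) => ε * ε = 1 ∧ Gen ε N))
      (fun _ _ => Nat.zero_le _) (mem_univ (1 : GT i))
  have h2 : ∑ ε : GT i, cnt (fun N : Finset (Om (GT i)) => ε * ε = 1 ∧ Gen ε N) ≤
      ∑ i : GI r, ∑ ε : GT i, cnt (fun N : Finset (Om (GT i)) => ε * ε = 1 ∧ Gen ε N) :=
    single_le_sum (f := fun i : GI r =>
      ∑ ε : GT i, cnt (fun N : Finset (Om (GT i)) => ε * ε = 1 ∧ Gen ε N))
      (fun _ _ => Nat.zero_le _) (mem_univ i)
  have b2 := gen_card (1 : GT i) k (by rw [card_GT]; exact hk) (by rw [card_GT]; exact hk')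
  have g2 : cnt (fun N : Finset (Om (GT i)) => (1 : GT i) * 1 = 1 ∧ Gen (1 : GT i) N) =
        cnt (fun N : Finset (Om (GT i)) => Gen (1 : GT i) N) := cnt_congr fun N => by simp
  have b3 := card_Om_ge (A := GT i)
  rw [card_GT] at b3
  calc 2 ^ (r / 9) ≤ 2 ^ Fintype.card (Om (GT i)) := Nat.pow_le_pow_right (by norm_num) b3
    _ ≤ 2 * cnt (fun N : Finset (Om (GT i)) => Gen (1 : GT i) N) := b2
    _ ≤ _ := by rw [← g2]; exact Nat.mul_le_mul_left _ (h1.trans h2)

end Pool.Agent.Helper96_HF
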