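import Mathlib
import Pool.Agent.Helper96_HF.Count

set_option autoImplicit false

/-!
The proportion of quotient hyperfields among finite hyperfields tends to zero.
-/

namespace Pool.Agent.Helper96_HF

open Finset

theorem pow_aux (k : ℕ) : 2 ^ (k / 3) * 3 ^ k ≤ 4 ^ k := by
  have h : k = 3 * (k / 3) + k % 3 := (Nat.div_add_mod k 3).symm
  set a := k / 3
  set b := k % 3
  rw [h, pow_add, pow_add, pow_mul, pow_mul]
  calc 2 ^ a * ((3 ^ 3) ^ a * 3 ^ b) = 54 ^ a * 3 ^ b := by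
        rw [← mul_assoc, ← mul_pow]; norm_num
    _ ≤ 64 ^ a * 4 ^ b := Nat.mul_le_mul (Nat.pow_le_pow_left (by norm_num) a)
        (Nat.pow_le_pow_left (by norm_num) b)
    _ = (4 ^ 3) ^ a * 4 ^ b := by norm_num

theorem exp_aux (l : ℕ) (hl : 13 ≤ l) :
    9 * (l ^ 2 + 6 * l + 11) ≤ 2 ^ l ∧ 108 * (4 * l + 6) ≤ 2 ^ l := by
  induction l, hl using Nat.le_induction with
  | base => norm_num
  | succ l hl ih =>
    obtain ⟨h1, h2⟩ := ih
    rw [pow_succ 2 l]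
    constructor
    · nlinarith
    · omega

theorem cond_aux (r : ℕ) (hr : 2 ^ 13 ≤ r) :
    36 * (r / 36) ≤ r ∧ 2 * r ^ 4 * 3 ^ (r / 36) ≤ 4 ^ (r / 36) ∧
    (2 * r ^ (Nat.log 2 r) * (16 * r ^ 4 + 2)) * 2 ^ (Nat.log 2 r) ≤ 2 ^ (r / 9) := by
  have hr0 : r ≠ 0 := by
    rintro rfl
    norm_num at hr
  set l := Nat.log 2 r with hl
  have hl13 : 13 ≤ l := (Nat.le_log_iff_pow_le (by norm_num) hr0).2 hr
  have hlow : 2 ^ l ≤ r := Nat.pow_log_le_self 2 hr0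
  have hup : r < 2 ^ (l + 1) := Nat.lt_pow_succ_log_self (by norm_num) r
  obtain ⟨e1, e2⟩ := exp_aux l hl13
  refine ⟨Nat.mul_div_le r 36, ?_, ?_⟩
  · have h1 : 4 * l + 5 ≤ r / 36 / 3 := by
      rw [Nat.div_div_eq_div_mul]
      omega
    have h2 : 2 * r ^ 4 ≤ 2 ^ (r / 36 / 3) := by
      calc 2 * r ^ 4 ≤ 2 * (2 ^ (l + 1)) ^ 4 :=
            Nat.mul_le_mul_left _ (Nat.pow_le_pow_left hup.le 4)
        _ = 2 ^ (4 * l + 5) := by rw [← pow_mul, ← pow_succ']; congr 1; ring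
        _ ≤ 2 ^ (r / 36 / 3) := Nat.pow_le_pow_right (by norm_num) h1
    exact (Nat.mul_le_mul_right _ h2).trans (pow_aux _)
  · have h1 : l ^ 2 + 6 * l + 11 ≤ r / 9 := by omega
    have h2 : r ^ l ≤ 2 ^ ((l + 1) * l) := by
      rw [pow_mul]
      exact Nat.pow_le_pow_left hup.le l
    have h3 : 16 * r ^ 4 + 2 ≤ 2 ^ (4 * l + 9) := by
      have a1 : r ^ 4 ≤ 2 ^ (4 * l + 4) := by
        calc r ^ 4 ≤ (2 ^ (l + 1)) ^ 4 := Nat.pow_le_pow_left hup.le 4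
          _ = 2 ^ (4 * l + 4) := by rw [← pow_mul]; congr 1; ring
      have a2 : 2 ^ (4 * l + 9) = 32 * 2 ^ (4 * l + 4) := by
        rw [show 4 * l + 9 = (4 * l + 4) + 5 by ring, pow_add]; ring
      have a3 : 1 ≤ 2 ^ (4 * l + 4) := Nat.one_le_two_pow
      omega
    calc (2 * r ^ l * (16 * r ^ 4 + 2)) * 2 ^ l
        ≤ (2 * 2 ^ ((l + 1) * l) * 2 ^ (4 * l + 9)) * 2 ^ l := by
          refine Nat.mul_le_mul_right _ (Nat.mul_le_mul (Nat.mul_le_mul_left _ h2) h3)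
      _ = 2 ^ (l ^ 2 + 6 * l + 10) := by
          rw [← pow_succ', ← pow_add, ← pow_add]; congr 1; ring
      _ ≤ 2 ^ (r / 9) := Nat.pow_le_pow_right (by norm_num) (by omega)

theorem ratio_le (r : ℕ) (hr : 2 ^ 13 ≤ r) :
    ((Classes (IsQ r)).ncard : ℝ) / ((Classes (IsH r)).ncard : ℝ) ≤ 2 / (r : ℝ) := by
  obtain ⟨c1, c2, c3⟩ := cond_aux r hr
  have hr0 : 0 < r := lt_of_lt_of_le (by norm_num) hr
  have h1 := classesQ_le r
  have h2 := classesH_ge r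
  have h3 := big_le_gen r (r / 36) c1 c2
  have h4 := gen_ge r (r / 36) hr0 c1 c2
  set Q := (Classes (IsQ r)).ncard
  set H := (Classes (IsH r)).ncard
  set D := cnt (fun z : Zall r => ZBig z)
  set G := cnt (fun z : Zall r => ZGen z)
  set W := 2 ^ (r / 9)
  set L := r ^ (Nat.log 2 r)
  set l := Nat.log 2 r
  have hup : r < 2 ^ (l + 1) := Nat.lt_pow_succ_log_self (by norm_num) r
  have hW : 0 < W := by positivity
  have hG : 0 < G := by
    rcases Nat.eq_zero_or_pos G with h | h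
    · rw [h] at h4; omega
    · exact h
  have hH : 0 < H := by
    rcases Nat.eq_zero_or_pos H with h | h
    · rw [h, mul_zero] at h2; omega
    · exact h
  have h5 : W * Q ≤ (2 * L * (16 * r ^ 4 + 2)) * H := by
    calc W * Q ≤ W * ((16 * r ^ 4 + 1) + D) := Nat.mul_le_mul_left _ h1
      _ = W * (16 * r ^ 4 + 1) + W * D := by ring
      _ ≤ (2 * G) * (16 * r ^ 4 + 1) + 2 * G := add_le_add (Nat.mul_le_mul_right _ h4) h3
      _ = 2 * G * (16 * r ^ 4 + 2) := by ring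
      _ ≤ 2 * (L * H) * (16 * r ^ 4 + 2) :=
          Nat.mul_le_mul_right _ (Nat.mul_le_mul_left _ h2)
      _ = _ := by ring
  have h6 : W * (Q * 2 ^ l) ≤ W * H := by
    calc W * (Q * 2 ^ l) = (W * Q) * 2 ^ l := by ring
      _ ≤ ((2 * L * (16 * r ^ 4 + 2)) * H) * 2 ^ l := Nat.mul_le_mul_right _ h5
      _ = ((2 * L * (16 * r ^ 4 + 2)) * 2 ^ l) * H := by ring
      _ ≤ W * H := Nat.mul_le_mul_right _ c3
  have h7 : Q * 2 ^ l ≤ H := Nat.le_of_mul_le_mul_left h6 hW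
  have h8 : Q * r ≤ 2 * H := by
    calc Q * r ≤ Q * 2 ^ (l + 1) := Nat.mul_le_mul_left _ hup.le
      _ = 2 * (Q * 2 ^ l) := by ring
      _ ≤ 2 * H := Nat.mul_le_mul_left _ h7
  have hHr : (0 : ℝ) < H := by exact_mod_cast hH
  have hrr : (0 : ℝ) < r := by exact_mod_cast hr0
  rw [div_le_div_iff₀ hHr hrr]
  exact_mod_cast h8

theorem tendsto_ratio :
    Filter.Tendsto (fun r : ℕ =>
      (((Classes (IsQ r)).ncard : ℕ) : ℝ) / (((Classes (IsH r)).ncard : ℕ) : ℝ))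
      Filter.atTop (nhds 0) := by
  have h1 : Filter.Tendsto (fun r : ℕ => 2 / (r : ℝ)) Filter.atTop (nhds 0) :=
    tendsto_const_div_atTop_nhds_zero_nat 2
  refine squeeze_zero' (Filter.Eventually.of_forall fun r => by positivity) ?_ h1
  filter_upwards [Filter.eventually_ge_atTop (2 ^ 13)] with r hr
  exact ratio_le r hr

end Pool.Agent.Helper96_HF
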